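import Pool.Agent.Helper34_Synd.Basic

set_option autoImplicit false

open scoped BigOperators Pointwise

namespace Pool.Agent.Helper34_Synd

/-- Amenability of a discrete group: there is a left-invariant finitely additive
probability measure defined on all subsets. -/
def Amenable (N : Type*) [Group N] : Prop :=
  ∃ m : Set N → ℝ, (∀ A, 0 ≤ m A) ∧ m Set.univ = 1 ∧
    (∀ A B, Disjoint A B → m (A ∪ B) = m A + m B) ∧
    (∀ (g : N) (A : Set N), m ((fun x => g * x) '' A) = m A)

section mean

variable {N : Type*} {m : Set N → ℝ}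

theorem mean_empty (h3 : ∀ A B, Disjoint A B → m (A ∪ B) = m A + m B) : m ∅ = 0 := by
  have := h3 ∅ ∅ (by simp)
  simp only [Set.union_self] at this
  linarith

theorem mean_mono (h1 : ∀ A, 0 ≤ m A) (h3 : ∀ A B, Disjoint A B → m (A ∪ B) = m A + m B)
    {A B : Set N} (h : A ⊆ B) : m A ≤ m B := by
  have := h3 A (B \ A) Set.disjoint_sdiff_right
  rw [Set.union_sdiff_cancel h] at this
  linarith [h1 (B \ A)]

theorem mean_union_le (h1 : ∀ A, 0 ≤ m A) (h3 : ∀ A B, Disjoint A B → m (A ∪ B) = m A + m B)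
    (A B : Set N) : m (A ∪ B) ≤ m A + m B := by
  have := h3 A (B \ A) Set.disjoint_sdiff_right
  rw [Set.union_sdiff_self] at this
  linarith [mean_mono h1 h3 (Set.sdiff_subset (s := B) (t := A))]

theorem mean_biUnion_le (h1 : ∀ A, 0 ≤ m A)
    (h3 : ∀ A B, Disjoint A B → m (A ∪ B) = m A + m B) {ι : Type*} (s : Finset ι)
    (E : ι → Set N) : m (⋃ i ∈ s, E i) ≤ ∑ i ∈ s, m (E i) := by
  classical
  induction s using Finset.induction_on with
  | empty => simp [mean_empty h3]
  | insert a s ha ih =>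
    rw [Finset.sum_insert ha, Finset.set_biUnion_insert]
    exact (mean_union_le h1 h3 _ _).trans (by linarith)

theorem mean_biUnion_eq (h3 : ∀ A B, Disjoint A B → m (A ∪ B) = m A + m B) {ι : Type*}
    (s : Finset ι) (E : ι → Set N)
    (hd : ∀ i ∈ s, ∀ j ∈ s, i ≠ j → Disjoint (E i) (E j)) :
    m (⋃ i ∈ s, E i) = ∑ i ∈ s, m (E i) := by
  classical
  induction s using Finset.induction_on with
  | empty => simp [mean_empty h3]
  | insert a s ha ih =>
    rw [Finset.sum_insert ha, Finset.set_biUnion_insert, h3, ih]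
    · intro i hi j hj hij
      exact hd i (Finset.mem_insert_of_mem hi) j (Finset.mem_insert_of_mem hj) hij
    · rw [Set.disjoint_iUnion₂_right]
      intro i hi
      exact hd a (Finset.mem_insert_self _ _) i (Finset.mem_insert_of_mem hi)
        (fun h => ha (h ▸ hi))

end mean

/-- A maximal `F`-separated subset. -/
theorem exists_maximal_separated {G : Type*} [Group G] (F : Set G) (hF : F.Nonempty) :
    ∃ S : Set G, (∀ s ∈ S, ∀ t ∈ S, ∀ f ∈ F, ∀ f' ∈ F, f * s = f' * t → s = t) ∧
      ∀ g : G, ∃ f ∈ F, ∃ f' ∈ F, f'⁻¹ * f * g ∈ S := by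
  classical
  let P : Set (Set G) := {S | ∀ s ∈ S, ∀ t ∈ S, ∀ f ∈ F, ∀ f' ∈ F, f * s = f' * t → s = t}
  have hchain : ∀ c ⊆ P, IsChain (· ⊆ ·) c → ∃ ub ∈ P, ∀ s ∈ c, s ⊆ ub := by
    intro c hc hch
    refine ⟨⋃₀ c, ?_, fun s hs => Set.subset_sUnion_of_mem hs⟩
    intro s hs t ht f hf f' hf' hst
    obtain ⟨A, hA, hsA⟩ := hs
    obtain ⟨B, hB, htB⟩ := ht
    rcases hch.total hA hB with h | h
    · exact hc hB s (h hsA) t htB f hf f' hf' hst
    · exact hc hA s hsA t (h htB) f hf f' hf' hst
  obtain ⟨S, hS⟩ := zorn_subset P hchain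
  have hSP : S ∈ P := hS.prop
  refine ⟨S, hSP, ?_⟩
  intro g
  by_cases hg : g ∈ S
  · obtain ⟨f, hf⟩ := hF
    exact ⟨f, hf, f, hf, by simpa using hg⟩
  · by_contra hcon
    push Not at hcon
    have hins : insert g S ∈ P := by
      intro s hs t ht f hf f' hf' hst
      rcases hs with rfl | hs
      · rcases ht with rfl | ht
        · rfl
        · exfalso
          apply hcon f hf f' hf'
          have : f'⁻¹ * f * s = t := by rw [mul_assoc, hst]; group
          rwa [this]
      · rcases ht with rfl | ht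
        · exfalso
          apply hcon f' hf' f hf
          have : f⁻¹ * f' * t = s := by rw [mul_assoc, ← hst]; group
          rwa [this]
        · exact hSP s hs t ht f hf f' hf' hst
    have := hS.le_of_ge hins (Set.subset_insert g S)
    exact hg (this (Set.mem_insert _ _))

/-- A group with an infinite amenable normal subgroup. -/
theorem good_of_normal_amenable {G : Type*} [Group G] (N : Subgroup G) [N.Normal] [Infinite N]
    (hN : Amenable N) : Good G := by
  classical
  obtain ⟨m, hm0, hm1, hm3, hm4⟩ := hN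
  -- finite subsets of `N` of size `2^n`
  have hfin : ∀ n : ℕ, ∃ F : Finset N, F.card = 2 ^ n := fun n =>
    Infinite.exists_subset_card_eq N (2 ^ n)
  choose F hF using hfin
  have hsep : ∀ n : ℕ, ∃ S : Set G,
      (∀ s ∈ S, ∀ t ∈ S, ∀ f ∈ F n, ∀ f' ∈ F n, (f : G) * s = f' * t → s = t) ∧
      ∀ g : G, ∃ f ∈ F n, ∃ f' ∈ F n, (f' : G)⁻¹ * f * g ∈ S := by
    intro n
    have hne : ((fun x : N => (x : G)) '' (F n : Set N)).Nonempty := by
      rw [Set.image_nonempty, Finset.coe_nonempty, ← Finset.card_pos, hF]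
      positivity
    obtain ⟨S, hS1, hS2⟩ := exists_maximal_separated ((fun x : N => (x : G)) '' (F n : Set N)) hne
    refine ⟨S, ?_, ?_⟩
    · intro s hs t ht f hf f' hf' h
      exact hS1 s hs t ht f ⟨f, hf, rfl⟩ f' ⟨f', hf', rfl⟩ h
    · intro g
      obtain ⟨_, ⟨f, hf, rfl⟩, _, ⟨f', hf', rfl⟩, h⟩ := hS2 g
      exact ⟨f, hf, f', hf', h⟩
  choose B hB1 hB2 using hsep
  refine ⟨B, ?_, ?_⟩
  · intro n
    refine ⟨(F n ×ˢ F n).image fun q => ((q.1 : G))⁻¹ * q.2, fun g => ?_⟩
    obtain ⟨f, hf, f', hf', h⟩ := hB2 n g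
    refine ⟨(f : G)⁻¹ * f', Finset.mem_image.2 ⟨(f, f'), Finset.mem_product.2 ⟨hf, hf'⟩, rfl⟩, ?_⟩
    simpa using h
  · intro T hT
    by_contra hcon
    push Not at hcon
    -- `hcon : ∀ K, ∃ y, ∀ k ∈ K, ∃ p ∈ T, ...`
    have hcon' : ∀ K : Finset N, ∃ y : G, ∀ k ∈ K, ∃ p ∈ T, p.1⁻¹ * ((k : G) * y) ∈ B p.2 := by
      intro K
      obtain ⟨y, hy⟩ := hcon (K.image fun x : N => (x : G))
      exact ⟨y, fun k hk => hy k (Finset.mem_image_of_mem _ hk)⟩
    choose y hy using hcon'
    let U : Ultrafilter (Finset N) := Ultrafilter.of Filter.atTop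
    have hU : (U : Filter (Finset N)) ≤ Filter.atTop := Ultrafilter.of_le _
    let E : G × ℕ → Set N := fun p => {k | ∀ᶠ K in (U : Filter (Finset N)),
      p.1⁻¹ * ((k : G) * y K) ∈ B p.2}
    have hcover : (⋃ p ∈ T, E p) = Set.univ := by
      rw [Set.eq_univ_iff_forall]
      intro k
      have h1 : ∀ᶠ K in (U : Filter (Finset N)), ∃ p ∈ T, p.1⁻¹ * ((k : G) * y K) ∈ B p.2 := by
        apply hU
        filter_upwards [Filter.eventually_ge_atTop {k}] with K hK
        exact hy K k (hK (Finset.mem_singleton_self k))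
      have h2 : ∃ p ∈ T, ∀ᶠ K in (U : Filter (Finset N)), p.1⁻¹ * ((k : G) * y K) ∈ B p.2 := by
        by_contra hno
        push Not at hno
        have h3 : ∀ p ∈ T, ∀ᶠ K in (U : Filter (Finset N)), p.1⁻¹ * ((k : G) * y K) ∉ B p.2 := by
          intro p hp
          exact hno p hp
        have h4 : ∀ᶠ K in (U : Filter (Finset N)), ∀ p ∈ T,
            p.1⁻¹ * ((k : G) * y K) ∉ B p.2 := by
          rw [Filter.eventually_all_finset]
          exact h3
        obtain ⟨K, ⟨p, hp, hpB⟩, hK⟩ := (h1.and h4).exists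
        exact hK p hp hpB
      obtain ⟨p, hp, hE⟩ := h2
      exact Set.mem_biUnion hp hE
    have hE : ∀ p ∈ T, m (E p) ≤ (1 / 2 : ℝ) ^ p.2 := by
      intro p _
      -- conjugated finite set
      let c : N → N := fun f => ⟨p.1 * f * p.1⁻¹, Subgroup.Normal.conj_mem inferInstance _ f.2 _⟩
      have hcinj : Function.Injective c := by
        intro f f' hff
        have := congrArg Subtype.val hff
        simp only [c] at this
        exact Subtype.ext (by simpa using this)
      have hdisj : ∀ f ∈ F p.2, ∀ f' ∈ F p.2, f ≠ f' →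
          Disjoint ((fun x => c f * x) '' E p) ((fun x => c f' * x) '' E p) := by
        intro f hf f' hf' hne
        rw [Set.disjoint_left]
        rintro _ ⟨k, hk, rfl⟩ ⟨k', hk', hkk⟩
        apply hne
        obtain ⟨K, hK, hK'⟩ := (Filter.Eventually.and (p := _) (q := _) hk hk').exists
        have hval : (c f' : G) * k' = c f * k := congrArg Subtype.val hkk
        have e : (f : G) * (p.1⁻¹ * ((k : G) * y K)) = f' * (p.1⁻¹ * ((k' : G) * y K)) := by
          simp only [c] at hval
          have h5 : (f : G) * p.1⁻¹ * k = f' * p.1⁻¹ * k' := by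
            have : p.1 * (↑f * p.1⁻¹ * ↑k) = p.1 * (↑f' * p.1⁻¹ * ↑k') := by
              simp only [mul_assoc] at hval ⊢
              exact hval.symm
            exact mul_left_cancel this
          calc (f : G) * (p.1⁻¹ * ((k : G) * y K)) = ((f : G) * p.1⁻¹ * k) * y K := by
                simp only [mul_assoc]
            _ = (f' * p.1⁻¹ * k') * y K := by rw [h5]
            _ = _ := by simp only [mul_assoc]
        have e2 := hB1 p.2 _ hK _ hK' f hf f' hf' e
        rw [e2] at e
        exact Subtype.ext (mul_right_cancel e)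
      have hsum : ∑ f ∈ F p.2, m ((fun x => c f * x) '' E p) ≤ 1 := by
        rw [← mean_biUnion_eq hm3 (F p.2) (fun f => (fun x => c f * x) '' E p) hdisj, ← hm1]
        exact mean_mono hm0 hm3 (Set.subset_univ _)
      simp only [hm4, Finset.sum_const, hF, nsmul_eq_mul] at hsum
      have h2n : (0 : ℝ) < 2 ^ p.2 := by positivity
      rw [one_div, inv_pow, ← one_div, le_div_iff₀ h2n]
      push_cast at hsum
      linarith
    have h1 : (1 : ℝ) ≤ ∑ p ∈ T, m (E p) := by
      rw [← hm1, ← hcover]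
      exact mean_biUnion_le hm0 hm3 T E
    have h2 : ∑ p ∈ T, m (E p) ≤ ∑ p ∈ T, (1 / 2 : ℝ) ^ p.2 := Finset.sum_le_sum hE
    linarith

end Pool.Agent.Helper34_Synd
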