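import Mathlib

set_option autoImplicit false

open scoped BigOperators

namespace Pool.Agent.Helper34_Synd

/-- `G` has a left-invariant syndetic submeasure. -/
def HasSyndeticSubmeasure (G : Type*) [Group G] : Prop :=
  ∃ μ : Set G → ℝ,
    (∀ A : Set G, 0 ≤ μ A ∧ μ A ≤ 1) ∧
    μ ∅ = 0 ∧ μ Set.univ = 1 ∧
    (∀ A B : Set G, A ⊆ B → μ A ≤ μ B) ∧
    (∀ A B : Set G, μ (A ∪ B) ≤ μ A + μ B) ∧
    (∀ (x : G) (A : Set G), μ ((fun y => x * y) '' A) = μ A) ∧
    (∀ A : Set G, μ A < 1 → ∀ ε : ℝ, 1 / (Nat.card G : ℝ) < ε →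
      ∃ B ⊆ Aᶜ, μ B < ε ∧
        ∃ F : Finset G, ∀ g : G, ∃ f ∈ F, ∃ b ∈ B, g = f * b)

/-- Combinatorial form: syndetic sets `B n` such that no finite union of left translates
`g B_n` with `∑ 2^{-n} < 1` is thick. -/
def Good (G : Type*) [Group G] : Prop :=
  ∃ B : ℕ → Set G,
    (∀ n, ∃ F : Finset G, ∀ g : G, ∃ f ∈ F, f⁻¹ * g ∈ B n) ∧
    (∀ T : Finset (G × ℕ), ∑ p ∈ T, (1 / 2 : ℝ) ^ p.2 < 1 →
      ∃ K : Finset G, ∀ y : G, ∃ k ∈ K, ∀ p ∈ T, p.1⁻¹ * (k * y) ∉ B p.2)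

theorem hasSyndeticSubmeasure_of_good {G : Type*} [Group G] [Infinite G] (h : Good G) :
    HasSyndeticSubmeasure G := by
  classical
  obtain ⟨B, h1, h2⟩ := h
  -- the set of costs
  let C : Set G → Set ℝ := fun A => insert 1
    {c | ∃ T : Finset (G × ℕ), (∀ a ∈ A, ∃ p ∈ T, p.1⁻¹ * a ∈ B p.2) ∧
      c = ∑ p ∈ T, (1 / 2 : ℝ) ^ p.2}
  let μ : Set G → ℝ := fun A => sInf (C A)
  have hnn : ∀ A, ∀ c ∈ C A, 0 ≤ c := by
    intro A c hc
    rcases hc with rfl | ⟨T, _, rfl⟩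
    · exact zero_le_one
    · exact Finset.sum_nonneg fun p _ => by positivity
  have hbdd : ∀ A, BddBelow (C A) := fun A => ⟨0, fun c hc => hnn A c hc⟩
  have hne : ∀ A, (C A).Nonempty := fun A => ⟨1, Set.mem_insert _ _⟩
  have hle : ∀ A c, c ∈ C A → μ A ≤ c := fun A c hc => csInf_le (hbdd A) hc
  have hlt : ∀ A c, μ A < c → ∃ d ∈ C A, d < c := fun A c hc => exists_lt_of_csInf_lt (hne A) hc
  have hcost : ∀ (A : Set G) (T : Finset (G × ℕ)), (∀ a ∈ A, ∃ p ∈ T, p.1⁻¹ * a ∈ B p.2) →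
      μ A ≤ ∑ p ∈ T, (1 / 2 : ℝ) ^ p.2 := fun A T hT => hle A _ (Or.inr ⟨T, hT, rfl⟩)
  have hmono : ∀ A A' : Set G, A ⊆ A' → μ A ≤ μ A' := by
    intro A A' hAA
    refine csInf_le_csInf (hbdd A) (hne A') ?_
    intro c hc
    rcases hc with rfl | ⟨T, hT, rfl⟩
    · exact Set.mem_insert _ _
    · exact Or.inr ⟨T, fun a ha => hT a (hAA ha), rfl⟩
  have h01 : ∀ A, 0 ≤ μ A ∧ μ A ≤ 1 := fun A =>
    ⟨le_csInf (hne A) (hnn A), hle A 1 (Set.mem_insert _ _)⟩
  refine ⟨μ, h01, ?_, ?_, hmono, ?_, ?_, ?_⟩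
  · refine le_antisymm ?_ (h01 ∅).1
    simpa using hcost ∅ ∅ (by simp)
  · refine le_antisymm (h01 _).2 ?_
    refine le_csInf (hne _) ?_
    intro c hc
    rcases hc with rfl | ⟨T, hT, rfl⟩
    · exact le_rfl
    · by_contra hlt1
      rw [not_le] at hlt1
      obtain ⟨K, hK⟩ := h2 T hlt1
      obtain ⟨k, _, hk⟩ := hK 1
      obtain ⟨p, hp, hpB⟩ := hT (k * 1) (Set.mem_univ _)
      exact hk p hp hpB
  · intro A A'
    -- subadditivity
    by_contra hcon
    rw [not_le] at hcon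
    have hδ : 0 < (μ (A ∪ A') - μ A - μ A') / 2 := by linarith
    set δ := (μ (A ∪ A') - μ A - μ A') / 2 with hδdef
    obtain ⟨c, hc, hc'⟩ := hlt A (μ A + δ) (by linarith)
    obtain ⟨d, hd, hd'⟩ := hlt A' (μ A' + δ) (by linarith)
    have hsum : μ (A ∪ A') ≤ c + d := by
      rcases hc with rfl | ⟨T, hT, rfl⟩
      · have := (h01 (A ∪ A')).2
        have := hnn A' d hd
        linarith
      · rcases hd with rfl | ⟨T', hT', rfl⟩
        · have := (h01 (A ∪ A')).2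
          have : 0 ≤ ∑ p ∈ T, (1 / 2 : ℝ) ^ p.2 := Finset.sum_nonneg fun p _ => by positivity
          linarith
        · refine (hcost (A ∪ A') (T ∪ T') ?_).trans ?_
          · rintro a (ha | ha)
            · obtain ⟨p, hp, hpB⟩ := hT a ha
              exact ⟨p, Finset.mem_union_left _ hp, hpB⟩
            · obtain ⟨p, hp, hpB⟩ := hT' a ha
              exact ⟨p, Finset.mem_union_right _ hp, hpB⟩
          · have := Finset.sum_union_inter (s₁ := T) (s₂ := T') (f := fun p => (1 / 2 : ℝ) ^ p.2)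
            have h0 : 0 ≤ ∑ p ∈ T ∩ T', (1 / 2 : ℝ) ^ p.2 := Finset.sum_nonneg fun p _ => by positivity
            linarith
    linarith
  · -- invariance
    have key : ∀ (x : G) (A : Set G), μ ((fun y => x * y) '' A) ≤ μ A := by
      intro x A
      refine csInf_le_csInf (hbdd _) (hne A) ?_
      intro c hc
      rcases hc with rfl | ⟨T, hT, rfl⟩
      · exact Set.mem_insert _ _
      · refine Or.inr ⟨T.image (fun p => (x * p.1, p.2)), ?_, ?_⟩
        · rintro _ ⟨a, ha, rfl⟩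
          obtain ⟨p, hp, hpB⟩ := hT a ha
          refine ⟨(x * p.1, p.2), Finset.mem_image_of_mem _ hp, ?_⟩
          simpa [mul_assoc] using hpB
        · rw [Finset.sum_image]
          intro p _ q _ hpq
          simp only [Prod.mk.injEq, mul_right_inj] at hpq
          exact Prod.ext hpq.1 hpq.2
    intro x A
    refine le_antisymm (key x A) ?_
    have := key x⁻¹ ((fun y => x * y) '' A)
    rw [Set.image_image] at this
    simpa using this
  · intro A hA ε hε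
    have hε0 : 0 < ε := by simpa [Nat.card_eq_zero_of_infinite] using hε
    obtain ⟨c, hc, hc1⟩ := hlt A 1 hA
    rcases hc with rfl | ⟨T, hT, rfl⟩
    · exact absurd hc1 (lt_irrefl _)
    · obtain ⟨K, hK⟩ := h2 T hc1
      -- choose n
      obtain ⟨n, hn⟩ : ∃ n : ℕ, (K.card : ℝ) * (1 / 2 : ℝ) ^ n < ε := by
        have ht : Filter.Tendsto (fun n : ℕ => (K.card : ℝ) * (1 / 2 : ℝ) ^ n) Filter.atTop
            (nhds ((K.card : ℝ) * 0)) :=
          (tendsto_pow_atTop_nhds_zero_of_lt_one (by norm_num) (by norm_num)).const_mul _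
        rw [mul_zero] at ht
        exact (ht.eventually (gt_mem_nhds hε0)).exists
      choose ks hks hks' using hK
      refine ⟨(fun s => ks s * s) '' (B n), ?_, ?_, ?_⟩
      · rintro _ ⟨s, _, rfl⟩ hmem
        obtain ⟨p, hp, hpB⟩ := hT _ hmem
        exact hks' s p hp hpB
      · refine lt_of_le_of_lt (hcost _ (K.image fun k => (k, n)) ?_) ?_
        · rintro _ ⟨s, hs, rfl⟩
          refine ⟨(ks s, n), Finset.mem_image_of_mem _ (hks s), ?_⟩
          simpa using hs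
        · rw [Finset.sum_image (by intro a _ b _ hab; simpa using hab)]
          simpa using hn
      · obtain ⟨F, hF⟩ := h1 n
        refine ⟨(F ×ˢ K).image fun q => q.1 * q.2⁻¹, ?_⟩
        intro g
        obtain ⟨f, hf, hfB⟩ := hF g
        refine ⟨f * (ks (f⁻¹ * g))⁻¹, ?_, ks (f⁻¹ * g) * (f⁻¹ * g), ⟨f⁻¹ * g, hfB, rfl⟩, ?_⟩
        · exact Finset.mem_image.2 ⟨(f, ks (f⁻¹ * g)), Finset.mem_product.2 ⟨hf, hks _⟩, rfl⟩
        · group

theorem good_of_surjective {G Q : Type*} [Group G] [Group Q] (π : G →* Q)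
    (hπ : Function.Surjective π) (h : Good Q) : Good G := by
  classical
  obtain ⟨B, h1, h2⟩ := h
  refine ⟨fun n => π ⁻¹' (B n), ?_, ?_⟩
  · intro n
    obtain ⟨F, hF⟩ := h1 n
    choose s hs using hπ
    refine ⟨F.image s, fun g => ?_⟩
    obtain ⟨f, hf, hfB⟩ := hF (π g)
    refine ⟨s f, Finset.mem_image_of_mem _ hf, ?_⟩
    simpa [hs] using hfB
  · intro T hT
    have hle : ∑ p ∈ T.image (fun p => (π p.1, p.2)), (1 / 2 : ℝ) ^ p.2 ≤
        ∑ p ∈ T, (1 / 2 : ℝ) ^ p.2 := by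
      rw [← Finset.sum_fiberwise_of_maps_to (s := T) (t := T.image (fun p => (π p.1, p.2)))
        (g := fun p => (π p.1, p.2)) (fun p hp => Finset.mem_image_of_mem _ hp)]
      refine Finset.sum_le_sum fun q hq => ?_
      obtain ⟨p, hp, rfl⟩ := Finset.mem_image.1 hq
      refine Finset.single_le_sum (f := fun p : G × ℕ => (1 / 2 : ℝ) ^ p.2)
        (fun _ _ => by positivity) (Finset.mem_filter.2 ⟨hp, rfl⟩)
    obtain ⟨K, hK⟩ := h2 _ (lt_of_le_of_lt hle hT)
    choose s hs using hπ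
    refine ⟨K.image s, fun y => ?_⟩
    obtain ⟨k, hk, hk'⟩ := hK (π y)
    refine ⟨s k, Finset.mem_image_of_mem _ hk, fun p hp => ?_⟩
    have := hk' (π p.1, p.2) (Finset.mem_image_of_mem _ hp)
    simpa [hs] using this

/-- Coinduction from a subgroup. -/
theorem good_of_subgroup {G : Type*} [Group G] (H : Subgroup G) (D : ℕ → Set H)
    (h1 : ∀ n, ∃ F : Finset H, ∀ g : H, ∃ f ∈ F, f⁻¹ * g ∈ D n)
    (h2 : ∀ T : Finset (G × ℕ), ∑ p ∈ T, (1 / 2 : ℝ) ^ p.2 < 1 →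
      ∃ K : Finset G, ∀ c : G → H, ∃ k ∈ K, ∀ p ∈ T, ∃ hk : p.1⁻¹ * k * p.1 ∈ H,
        (⟨p.1⁻¹ * k * p.1, hk⟩ : H) * c p.1 ∉ D p.2) : Good G := by
  classical
  -- representatives of right cosets
  let rep : G → G := fun g => (Quotient.mk (QuotientGroup.rightRel H) g).out
  have hrep : ∀ g, g * (rep g)⁻¹ ∈ H := by
    intro g
    have : (QuotientGroup.rightRel H) (rep g) g := Quotient.exact (Quotient.out_eq _)
    rwa [QuotientGroup.rightRel_apply] at this
  have hrep2 : ∀ (h : H) (g : G), rep ((h : G) * g) = rep g := by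
    intro h g
    have : (Quotient.mk (QuotientGroup.rightRel H) ((h : G) * g)) =
        Quotient.mk (QuotientGroup.rightRel H) g := by
      apply Quotient.sound
      change (QuotientGroup.rightRel H) _ _
      rw [QuotientGroup.rightRel_apply]
      simp
    simp only [rep, this]
  refine ⟨fun n => {g | (⟨g * (rep g)⁻¹, hrep g⟩ : H) ∈ D n}, ?_, ?_⟩
  · intro n
    obtain ⟨F, hF⟩ := h1 n
    refine ⟨F.image (fun f : H => (f : G)), fun g => ?_⟩
    obtain ⟨f, hf, hfD⟩ := hF ⟨g * (rep g)⁻¹, hrep g⟩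
    refine ⟨f, Finset.mem_image_of_mem _ hf, ?_⟩
    have e : rep ((f : G)⁻¹ * g) = rep g := by
      have := hrep2 f⁻¹ g
      simpa using this
    simp only [Set.mem_ofPred_eq]
    convert hfD using 1
    apply Subtype.ext
    simp [e, mul_assoc]
  · intro T hT
    obtain ⟨K, hK⟩ := h2 T hT
    refine ⟨K, fun y => ?_⟩
    obtain ⟨k, hk, hk'⟩ := hK (fun g => ⟨(g⁻¹ * y) * (rep (g⁻¹ * y))⁻¹, hrep _⟩)
    refine ⟨k, hk, fun p hp => ?_⟩
    obtain ⟨hkH, hD⟩ := hk' p hp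
    intro hmem
    apply hD
    simp only [Set.mem_ofPred_eq] at hmem
    convert hmem using 1
    apply Subtype.ext
    have e1 : p.1⁻¹ * (k * y) = (p.1⁻¹ * k * p.1) * (p.1⁻¹ * y) := by group
    have e2 : rep (p.1⁻¹ * (k * y)) = rep (p.1⁻¹ * y) := by
      rw [e1]
      exact hrep2 ⟨_, hkH⟩ _
    simp only [Subgroup.coe_mul, e2]
    rw [e1]
    group

end Pool.Agent.Helper34_Synd
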