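import Pool.Agent.Helper34_Synd.Basic

set_option autoImplicit false

open scoped BigOperators

namespace Pool.Agent.Helper34_Synd

/-- Coarse rotation windows: a real function `D` on `G` such that for every finite `S ⊆ G` and
every length `M` there are finitely many `M`-chains such that every `y` has a chain along which
all the functions `m ↦ D (s⁻¹ * κ m * y)`, `s ∈ S`, are up to an error `C` affine with slope
`1` or `-1`. -/
def CoarseWindows (G : Type*) [Group G] : Prop :=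
  ∃ (D : G → ℝ) (C : ℝ), ∀ (S : Finset G) (M : ℕ), ∃ (J : ℕ) (κ : Fin J → ℕ → G),
    ∀ y : G, ∃ j : Fin J, ∀ s ∈ S, ∃ (σ : ℤ) (θ : ℝ), (σ = 1 ∨ σ = -1) ∧
      ∀ m < M, |D (s⁻¹ * (κ j m * y)) - (θ + σ * m)| ≤ C

/-- at most `2R+1` integers in an interval of length `2R` -/
theorem card_int_le (θ R : ℝ) (hR : 0 ≤ R) (A : Finset ℤ) (hA : ∀ n ∈ A, |θ + n| ≤ R) :
    (A.card : ℝ) ≤ 2 * R + 1 := by
  have hsub : A ⊆ Finset.Icc ⌈-θ - R⌉ ⌊-θ + R⌋ := by
    intro n hn
    have h := abs_le.1 (hA n hn)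
    rw [Finset.mem_Icc]
    constructor
    · rw [Int.ceil_le]; linarith [h.1]
    · rw [Int.le_floor]; linarith [h.2]
  have h1 := Finset.card_le_card hsub
  rw [Int.card_Icc] at h1
  have h2 : (A.card : ℝ) ≤ ((⌊-θ + R⌋ + 1 - ⌈-θ - R⌉).toNat : ℝ) := by exact_mod_cast h1
  refine h2.trans ?_
  have h3 : ((⌊-θ + R⌋ + 1 - ⌈-θ - R⌉).toNat : ℝ) =
      ((max (⌊-θ + R⌋ + 1 - ⌈-θ - R⌉) 0 : ℤ) : ℝ) := by
    rw [← Int.toNat_eq_max, Int.cast_natCast]
  rw [h3]
  push_cast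
  apply max_le
  · have := Int.floor_le (-θ + R)
    have := Int.le_ceil (-θ - R)
    linarith
  · linarith

/-- counting in one period -/
theorem card_period_le (θ R : ℝ) (hR : 0 ≤ R) (σ : ℤ) (hσ : σ = 1 ∨ σ = -1) (q : ℕ)
    (A : Finset ℕ) (hA : ∀ m ∈ A, m < q ∧ ∃ z : ℤ, |θ + σ * m - q * z| ≤ R) :
    (A.card : ℝ) ≤ 2 * R + 1 := by
  classical
  choose! z hz using fun m (hm : m ∈ A) => (hA m hm).2
  let g : ℕ → ℤ := fun m => σ * m - q * z m
  have hinj : Set.InjOn g A := by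
    intro m hm m' hm' h
    have hm1 := (hA m hm).1
    have hm2 := (hA m' hm').1
    simp only [g] at h
    have h1 : (q : ℤ) ∣ ((m : ℤ) - m') := by
      rcases hσ with rfl | rfl
      · exact ⟨z m - z m', by linarith⟩
      · exact ⟨z m' - z m, by linarith⟩
    have h2 : (m : ℤ) - m' = 0 := by
      apply Int.eq_zero_of_abs_lt_dvd h1
      rw [abs_lt]
      constructor <;> omega
    omega
  rw [← Finset.card_image_of_injOn hinj]
  refine card_int_le θ R hR _ ?_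
  intro n hn
  obtain ⟨m, hm, rfl⟩ := Finset.mem_image.1 hn
  have := hz m hm
  simp only [g]
  push_cast
  rwa [← add_sub_assoc]

/-- counting in `L` periods -/
theorem card_periods_le (θ R : ℝ) (hR : 0 ≤ R) (σ : ℤ) (hσ : σ = 1 ∨ σ = -1) (q L : ℕ)
    (hq : 0 < q)
    (A : Finset ℕ) (hA : ∀ m ∈ A, m < q * L ∧ ∃ z : ℤ, |θ + σ * m - q * z| ≤ R) :
    (A.card : ℝ) ≤ L * (2 * R + 1) := by
  classical
  have h1 : A.card = ∑ l ∈ Finset.range L, (A.filter (fun m => m / q = l)).card := by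
    rw [Finset.card_eq_sum_card_fiberwise (f := fun m => m / q) (t := Finset.range L)]
    intro m hm
    have := (hA m hm).1
    simp only [Finset.coe_range, Set.mem_Iio]
    exact Nat.div_lt_of_lt_mul this
  have h2 : ∀ l ∈ Finset.range L, ((A.filter (fun m => m / q = l)).card : ℝ) ≤ 2 * R + 1 := by
    intro l _
    have hinj : Set.InjOn (fun m => m - q * l) (A.filter (fun m => m / q = l)) := by
      intro m hm m' hm' h
      rw [Finset.mem_coe, Finset.mem_filter] at hm hm'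
      have e1 := Nat.div_add_mod m q
      have e2 := Nat.div_add_mod m' q
      rw [hm.2] at e1
      rw [hm'.2] at e2
      simp only at h
      omega
    rw [← Finset.card_image_of_injOn hinj]
    refine card_period_le (θ + σ * (q * l : ℕ)) R hR σ hσ q _ ?_
    intro n hn
    obtain ⟨m, hm, rfl⟩ := Finset.mem_image.1 hn
    rw [Finset.mem_filter] at hm
    have e1 := Nat.div_add_mod m q
    rw [hm.2] at e1
    have e3 := Nat.mod_lt m hq
    refine ⟨by omega, ?_⟩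
    obtain ⟨z, hz⟩ := (hA m hm.1).2
    refine ⟨z, ?_⟩
    have e4 : ((m - q * l : ℕ) : ℝ) = m - (q * l : ℕ) := by
      rw [Nat.cast_sub (by omega)]
    rw [e4]
    have e5 : θ + σ * ((q * l : ℕ) : ℝ) + σ * (m - ((q * l : ℕ) : ℝ)) - q * z =
        θ + σ * m - q * z := by ring
    rw [e5]
    exact hz
  have h3 : (A.card : ℝ) = ∑ l ∈ Finset.range L, ((A.filter (fun m => m / q = l)).card : ℝ) := by
    exact_mod_cast h1
  rw [h3]
  refine (Finset.sum_le_sum h2).trans ?_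
  rw [Finset.sum_const, nsmul_eq_mul, Finset.card_range]

theorem good_of_coarseWindows {G : Type*} [Group G] (h : CoarseWindows G) : Good G := by
  classical
  obtain ⟨D, C', hD'⟩ := h
  -- make the constant nonnegative
  obtain ⟨C, hC0, hD⟩ : ∃ C : ℝ, 0 ≤ C ∧ ∀ (S : Finset G) (M : ℕ),
      ∃ (J : ℕ) (κ : Fin J → ℕ → G), ∀ y : G, ∃ j : Fin J, ∀ s ∈ S, ∃ (σ : ℤ) (θ : ℝ),
      (σ = 1 ∨ σ = -1) ∧ ∀ m < M, |D (s⁻¹ * (κ j m * y)) - (θ + σ * m)| ≤ C := by
    refine ⟨max C' 0, le_max_right _ _, fun S M => ?_⟩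
    obtain ⟨J, κ, hκ⟩ := hD' S M
    refine ⟨J, κ, fun y => ?_⟩
    obtain ⟨j, h2⟩ := hκ y
    refine ⟨j, fun s hs => ?_⟩
    obtain ⟨σ, θ, hσ, hθ⟩ := h2 s hs
    exact ⟨σ, θ, hσ, fun m hm => (hθ m hm).trans (le_max_left _ _)⟩
  clear hD'
  choose q hq using fun n : ℕ => exists_nat_ge ((2 : ℝ) ^ n * (4 * C + 3))
  have hqpos : ∀ n, 0 < q n := by
    intro n
    have h1 : (0 : ℝ) < (2 : ℝ) ^ n * (4 * C + 3) := by positivity
    have h2 := lt_of_lt_of_le h1 (hq n)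
    exact_mod_cast h2
  have hq2 : ∀ n, 4 * C + 3 ≤ (1 / 2 : ℝ) ^ n * q n := by
    intro n
    have h1 : (1 / 2 : ℝ) ^ n * (2 : ℝ) ^ n = 1 := by rw [← mul_pow]; norm_num
    calc 4 * C + 3 = (1 / 2 : ℝ) ^ n * ((2 : ℝ) ^ n * (4 * C + 3)) := by
          rw [← mul_assoc, h1, one_mul]
      _ ≤ _ := mul_le_mul_of_nonneg_left (hq n) (by positivity)
  refine ⟨fun n => {x | ∃ z : ℤ, |D x - q n * z| ≤ C + 1}, ?_, ?_⟩
  · intro n
    obtain ⟨J, κ, hκ⟩ := hD {1} (q n)
    refine ⟨(Finset.univ ×ˢ Finset.range (q n)).image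
      (fun p : Fin J × ℕ => (κ p.1 p.2)⁻¹), fun g => ?_⟩
    obtain ⟨j, h2⟩ := hκ g
    obtain ⟨σ, θ, hσ, hθ⟩ := h2 1 (Finset.mem_singleton_self _)
    -- choose m
    obtain ⟨m, hm, z, hz⟩ : ∃ m < q n, ∃ z : ℤ, σ * (m : ℤ) = -⌊θ⌋ + q n * z := by
      have hqn : (0 : ℤ) < q n := by exact_mod_cast hqpos n
      refine ⟨((σ * (-⌊θ⌋)) % (q n)).toNat, ?_, ?_⟩
      · have := Int.emod_lt_of_pos (σ * (-⌊θ⌋)) hqn
        have := Int.emod_nonneg (σ * (-⌊θ⌋)) hqn.ne'
        omega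
      · have h3 := Int.emod_nonneg (σ * (-⌊θ⌋)) hqn.ne'
        have h4 := Int.emod_add_mul_ediv (σ * (-⌊θ⌋)) (q n)
        rw [Int.toNat_of_nonneg h3]
        refine ⟨-σ * ((σ * (-⌊θ⌋)) / (q n)), ?_⟩
        have h5 : (σ * (-⌊θ⌋)) % (q n) = σ * (-⌊θ⌋) - (q n) * ((σ * (-⌊θ⌋)) / (q n)) := by
          linarith
        rw [h5]
        have h6 : σ * σ = 1 := by rcases hσ with rfl | rfl <;> norm_num
        linear_combination (-⌊θ⌋) * h6
    refine ⟨(κ j m)⁻¹, Finset.mem_image.2 ⟨(j, m), by simp [hm], rfl⟩, ?_⟩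
    refine ⟨z, ?_⟩
    have h3 := hθ m hm
    simp only [inv_one, one_mul] at h3
    rw [inv_inv]
    have h4 : (σ : ℝ) * m = -⌊θ⌋ + q n * z := by exact_mod_cast hz
    have h5 : |θ + σ * m - q n * z| ≤ 1 := by
      rw [h4]
      have e : θ + (-(⌊θ⌋ : ℝ) + q n * z) - q n * z = θ - ⌊θ⌋ := by ring
      rw [e, abs_le]
      have := Int.floor_le θ
      have := Int.lt_floor_add_one θ
      constructor <;> linarith
    calc |D (κ j m * g) - q n * z| = |(D (κ j m * g) - (θ + σ * m)) + (θ + σ * m - q n * z)| := by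
          congr 1; ring
      _ ≤ |D (κ j m * g) - (θ + σ * m)| + |θ + σ * m - q n * z| := abs_add_le _ _
      _ ≤ C + 1 := add_le_add h3 h5
  · intro T hT
    let M : ℕ := ∏ p ∈ T, q p.2
    obtain ⟨J, κ, hκ⟩ := hD (T.image Prod.fst) M
    refine ⟨(Finset.univ ×ˢ Finset.range M).image
      (fun p : Fin J × ℕ => κ p.1 p.2), fun y => ?_⟩
    obtain ⟨j, h2⟩ := hκ y
    have hMpos : 0 < M := Finset.prod_pos fun p _ => hqpos _
    have hcard : ∀ p ∈ T, (((Finset.range M).filter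
        (fun m => ∃ z : ℤ, |D (p.1⁻¹ * (κ j m * y)) - q p.2 * z| ≤ C + 1)).card : ℝ) ≤
          (1 / 2 : ℝ) ^ p.2 * M := by
      intro p hp
      obtain ⟨σ, θ, hσ, hθ⟩ := h2 p.1 (Finset.mem_image_of_mem _ hp)
      obtain ⟨L, hL⟩ : q p.2 ∣ M := Finset.dvd_prod_of_mem (fun p : G × ℕ => q p.2) hp
      have h3 := card_periods_le θ (2 * C + 1) (by linarith) σ hσ (q p.2) L (hqpos _)
        ((Finset.range M).filter
        (fun m => ∃ z : ℤ, |D (p.1⁻¹ * (κ j m * y)) - q p.2 * z| ≤ C + 1)) (by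
          intro m hm
          rw [Finset.mem_filter, Finset.mem_range] at hm
          refine ⟨by rw [← hL]; exact hm.1, ?_⟩
          obtain ⟨z, hz⟩ := hm.2
          refine ⟨z, ?_⟩
          have h4 := hθ m hm.1
          calc |θ + σ * m - q p.2 * z| = |(D (p.1⁻¹ * (κ j m * y)) - q p.2 * z) -
                (D (p.1⁻¹ * (κ j m * y)) - (θ + σ * m))| := by congr 1; ring
            _ ≤ |D (p.1⁻¹ * (κ j m * y)) - q p.2 * z| +
                |D (p.1⁻¹ * (κ j m * y)) - (θ + σ * m)| := abs_sub _ _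
            _ ≤ 2 * C + 1 := by linarith)
      refine h3.trans ?_
      have h5 : (M : ℝ) = q p.2 * L := by exact_mod_cast hL
      rw [h5]
      have h6 := mul_le_mul_of_nonneg_right (hq2 p.2) (Nat.cast_nonneg L (α := ℝ))
      linarith
    by_contra hcon
    push Not at hcon
    have hcover : Finset.range M ⊆ T.biUnion (fun p => (Finset.range M).filter
        (fun m => ∃ z : ℤ, |D (p.1⁻¹ * (κ j m * y)) - q p.2 * z| ≤ C + 1)) := by
      intro m hm
      obtain ⟨p, hp, hpB⟩ := hcon (κ j m) (Finset.mem_image.2 ⟨(j, m), by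
        simpa using hm, rfl⟩)
      exact Finset.mem_biUnion.2 ⟨p, hp, Finset.mem_filter.2 ⟨hm, hpB⟩⟩
    have h7 := (Finset.card_le_card hcover).trans Finset.card_biUnion_le
    rw [Finset.card_range] at h7
    have h8 : (M : ℝ) ≤ ∑ p ∈ T, (((Finset.range M).filter
        (fun m => ∃ z : ℤ, |D (p.1⁻¹ * (κ j m * y)) - q p.2 * z| ≤ C + 1)).card : ℝ) := by
      exact_mod_cast h7
    have h9 := h8.trans (Finset.sum_le_sum hcard)
    rw [← Finset.sum_mul] at h9
    have h10 : (0 : ℝ) < M := by exact_mod_cast hMpos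
    have h11 := mul_lt_mul_of_pos_right hT h10
    linarith

end Pool.Agent.Helper34_Synd
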