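import Pool.Agent.Helper34_Synd.Basic

set_option autoImplicit false

namespace Pool.Agent.Helper34_Synd

theorem hasSyndeticSubmeasure_of_finite {G : Type*} [Group G] [Finite G] :
    HasSyndeticSubmeasure G := by
  classical
  have hc : (0 : ℝ) < Nat.card G := by exact_mod_cast Nat.card_pos
  refine ⟨fun A => (A.ncard : ℝ) / Nat.card G, ?_, ?_, ?_, ?_, ?_, ?_, ?_⟩
  · intro A
    refine ⟨by positivity, ?_⟩
    rw [div_le_one hc]
    exact_mod_cast Set.ncard_le_card A
  · simp
  · beta_reduce
    rw [Set.ncard_univ]
    exact div_self hc.ne'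
  · intro A B hAB
    apply div_le_div_of_nonneg_right _ hc.le
    exact_mod_cast Set.ncard_le_ncard hAB (Set.toFinite B)
  · intro A B
    rw [← add_div]
    apply div_le_div_of_nonneg_right _ hc.le
    exact_mod_cast Set.ncard_union_le A B
  · intro x A
    beta_reduce
    rw [Set.ncard_image_of_injective _ (mul_right_injective x)]
  · intro A hA ε hε
    have hne : Aᶜ.Nonempty := by
      rw [Set.nonempty_compl]
      rintro rfl
      simp only [Set.ncard_univ, div_self hc.ne'] at hA
      exact lt_irrefl _ hA
    obtain ⟨b, hb⟩ := hne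
    refine ⟨{b}, by simpa using hb, by simpa using hε, ?_⟩
    have : Fintype G := Fintype.ofFinite G
    exact ⟨Finset.univ, fun g => ⟨g * b⁻¹, Finset.mem_univ _, b, rfl, by group⟩⟩

theorem hasSyndeticSubmeasure_of_good' {G : Type*} [Group G] (h : Good G) :
    HasSyndeticSubmeasure G := by
  rcases finite_or_infinite G with hf | hi
  · exact hasSyndeticSubmeasure_of_finite
  · exact hasSyndeticSubmeasure_of_good h

end Pool.Agent.Helper34_Synd
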