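import Pool.Agent.Helper34_Synd.Basic

set_option autoImplicit false

open scoped BigOperators Pointwise Topology

namespace Pool.Agent.Helper34_Synd

section flow

variable {G X : Type*} [Group G] [TopologicalSpace X] [CompactSpace X] [T2Space X]
  [MulAction G X] [ContinuousConstSMul G X] [MulAction.IsMinimal G X]

/-- Flow criterion: a minimal flow with nonempty open sets `C n` such that no cheap family of
translates of their closures covers the space. -/
theorem good_of_flow [Nonempty X] (C : ℕ → Set X) (hCo : ∀ n, IsOpen (C n))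
    (hCn : ∀ n, (C n).Nonempty)
    (hC : ∀ T : Finset (G × ℕ), ∑ p ∈ T, (1 / 2 : ℝ) ^ p.2 < 1 →
      ∃ x : X, ∀ p ∈ T, p.1⁻¹ • x ∉ closure (C p.2)) : Good G := by
  classical
  obtain ⟨x₀⟩ := ‹Nonempty X›
  refine ⟨fun n => {g | g • x₀ ∈ C n}, ?_, ?_⟩
  · intro n
    obtain ⟨I, hI⟩ := (isCompact_univ (X := X)).exists_finite_cover_smul (G := G) (hCo n) (hCn n)
    refine ⟨I, fun g => ?_⟩
    have h1 : g • x₀ ∈ ⋃ f ∈ I, f • C n := hI (Set.mem_univ _)
    simp only [Set.mem_iUnion] at h1
    obtain ⟨f, hf, hfg⟩ := h1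
    refine ⟨f, hf, ?_⟩
    rw [Set.mem_smul_set_iff_inv_smul_mem] at hfg
    simpa [mul_smul] using hfg
  · intro T hT
    obtain ⟨x, hx⟩ := hC T hT
    set U : Set X := ⋂ p ∈ T, {x : X | p.1⁻¹ • x ∉ closure (C p.2)} with hU
    have hUo : IsOpen U := by
      refine isOpen_biInter_finset fun p _ => ?_
      have : {x : X | p.1⁻¹ • x ∉ closure (C p.2)} =
          (fun x : X => p.1⁻¹ • x) ⁻¹' (closure (C p.2))ᶜ := rfl
      rw [this]
      exact isClosed_closure.isOpen_compl.preimage (continuous_const_smul _)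
    have hUn : U.Nonempty := ⟨x, by simpa [hU] using hx⟩
    obtain ⟨I, hI⟩ := (isCompact_univ (X := X)).exists_finite_cover_smul (G := G) hUo hUn
    refine ⟨I.image (fun f => f⁻¹), fun y => ?_⟩
    have h1 : y • x₀ ∈ ⋃ f ∈ I, f • U := hI (Set.mem_univ _)
    simp only [Set.mem_iUnion] at h1
    obtain ⟨f, hf, hfg⟩ := h1
    refine ⟨f⁻¹, Finset.mem_image_of_mem _ hf, fun p hp hcon => ?_⟩
    rw [Set.mem_smul_set_iff_inv_smul_mem] at hfg
    simp only [hU, Set.mem_iInter] at hfg
    have h2 := hfg p hp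
    simp only [Set.mem_ofPred_eq] at h2 hcon
    apply h2
    apply subset_closure
    simpa [mul_smul] using hcon

omit [CompactSpace X] in
/-- Points of an infinite minimal flow have infinite orbits. -/
theorem orbit_infinite [Infinite X] (x : X) : (MulAction.orbit G x).Infinite := by
  intro hfin
  have hd : Dense (MulAction.orbit G x) := MulAction.IsMinimal.dense_orbit x
  have hc : closure (MulAction.orbit G x) = MulAction.orbit G x := hfin.isClosed.closure_eq
  have hu : MulAction.orbit G x = Set.univ := by rw [← hc]; exact hd.closure_eq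
  rw [hu] at hfin
  exact Set.infinite_univ hfin

/-- Infinite minimal flows with an invariant probability measure. -/
theorem good_of_invariant_measure [Infinite X] [MeasurableSpace X] [BorelSpace X]
    (ν : MeasureTheory.Measure X) [MeasureTheory.IsProbabilityMeasure ν] [ν.OuterRegular]
    (hν : ∀ (g : G) (A : Set X), MeasurableSet A → ν (g • A) = ν A) : Good G := by
  classical
  -- no atoms
  have hatom : ∀ x : X, ν {x} = 0 := by
    intro x
    by_contra hne
    have hinf := orbit_infinite (G := G) x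
    -- all points of the orbit have the same measure
    have hsame : ∀ z ∈ MulAction.orbit G x, ν {z} = ν {x} := by
      rintro _ ⟨g, rfl⟩
      have := hν g {x} (MeasurableSet.singleton x)
      simpa using this
    obtain ⟨n, hn⟩ := ENNReal.exists_nat_mul_gt hne (ENNReal.one_ne_top)
    obtain ⟨s, hs, hsc⟩ := hinf.exists_subset_card_eq n
    have h1 : ν (s : Set X) = ∑ z ∈ s, ν {z} := by
      rw [MeasureTheory.sum_measure_singleton]
    have h2 : ν (s : Set X) = n * ν {x} := by
      rw [h1, Finset.sum_congr rfl fun z hz => hsame z (hs hz), Finset.sum_const, hsc,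
        nsmul_eq_mul]
    have h3 : ν (s : Set X) ≤ 1 := MeasureTheory.prob_le_one
    rw [h2] at h3
    exact absurd h3 (not_le.2 hn)
  obtain ⟨x₀⟩ : Nonempty X := inferInstance
  have hex : ∀ n : ℕ, ∃ C : Set X, IsOpen C ∧ C.Nonempty ∧
      ν (closure C) ≤ ENNReal.ofReal ((1 / 2 : ℝ) ^ n) := by
    intro n
    have hpos : (0 : ENNReal) < ENNReal.ofReal ((1 / 2 : ℝ) ^ n) :=
      ENNReal.ofReal_pos.2 (by positivity)
    obtain ⟨U, hxU, hUo, hUν⟩ := Set.exists_isOpen_lt_of_lt ({x₀} : Set X) _
      (by rw [hatom x₀]; exact hpos)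
    obtain ⟨V, hVn, hVc, hVU⟩ := exists_mem_nhds_isClosed_subset
      (hUo.mem_nhds (hxU (Set.mem_singleton x₀)))
    refine ⟨interior V, isOpen_interior, ⟨x₀, mem_interior_iff_mem_nhds.2 hVn⟩, ?_⟩
    have h1 : closure (interior V) ⊆ U :=
      (closure_minimal interior_subset hVc).trans hVU
    exact (MeasureTheory.measure_mono h1).trans hUν.le
  choose C hCo hCn hCν using hex
  refine good_of_flow C hCo hCn fun T hT => ?_
  by_contra hcon
  push Not at hcon
  have hcover : (Set.univ : Set X) ⊆ ⋃ p ∈ T, p.1 • closure (C p.2) := by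
    intro x _
    obtain ⟨p, hp, hpx⟩ := hcon x
    simp only [Set.mem_iUnion]
    exact ⟨p, hp, Set.mem_smul_set_iff_inv_smul_mem.2 hpx⟩
  have h1 : (1 : ENNReal) ≤ ∑ p ∈ T, ENNReal.ofReal ((1 / 2 : ℝ) ^ p.2) := by
    calc (1 : ENNReal) = ν Set.univ := MeasureTheory.measure_univ.symm
      _ ≤ ν (⋃ p ∈ T, p.1 • closure (C p.2)) := MeasureTheory.measure_mono hcover
      _ ≤ ∑ p ∈ T, ν (p.1 • closure (C p.2)) := MeasureTheory.measure_biUnion_finset_le _ _
      _ ≤ ∑ p ∈ T, ENNReal.ofReal ((1 / 2 : ℝ) ^ p.2) := by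
          refine Finset.sum_le_sum fun p _ => ?_
          rw [hν p.1 _ isClosed_closure.measurableSet]
          exact hCν p.2
  rw [← ENNReal.ofReal_sum_of_nonneg (fun p _ => by positivity)] at h1
  have h2 : ENNReal.ofReal (∑ p ∈ T, (1 / 2 : ℝ) ^ p.2) < 1 := by
    rw [← ENNReal.ofReal_one]
    exact (ENNReal.ofReal_lt_ofReal_iff one_pos).2 hT
  exact absurd h1 (not_le.2 h2)

end flow

end Pool.Agent.Helper34_Synd
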