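import Pool.Agent.Helper34_Synd.Flow

set_option autoImplicit false

open scoped BigOperators Pointwise Topology

namespace Pool.Agent.Helper34_Synd

section aut

variable {X : Type*} [TopologicalSpace X]

/-- iterated sums over products `φ₁⁻¹ ⋯ φₙ⁻¹` -/
noncomputable def Sf (Φ : ℕ → Finset (X ≃ₜ X)) : ℕ → ((X ≃ₜ X) → ℝ) → ℝ
  | 0, f => f 1
  | (n + 1), f => ∑ φ ∈ Φ (n + 1), Sf Φ n (fun γ => f (γ * φ⁻¹))

open Classical in
/-- the finite set of products `φ₁⁻¹ ⋯ φₙ⁻¹` -/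
noncomputable def Gm (Φ : ℕ → Finset (X ≃ₜ X)) : ℕ → Finset (X ≃ₜ X)
  | 0 => {1}
  | (n + 1) => (Gm Φ n ×ˢ Φ (n + 1)).image (fun p => p.1 * p.2⁻¹)

theorem Sf_sum (Φ : ℕ → Finset (X ≃ₜ X)) {I : Type*} (s : Finset I) (n : ℕ)
    (f : I → (X ≃ₜ X) → ℝ) :
    Sf Φ n (fun γ => ∑ i ∈ s, f i γ) = ∑ i ∈ s, Sf Φ n (f i) := by
  induction n generalizing f with
  | zero => rfl
  | succ n ih =>
    simp only [Sf]
    rw [Finset.sum_comm]
    refine Finset.sum_congr rfl fun φ _ => ?_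
    exact ih (fun i γ => f i (γ * φ⁻¹))

theorem Sf_mono (Φ : ℕ → Finset (X ≃ₜ X)) (n : ℕ) (f f' : (X ≃ₜ X) → ℝ)
    (h : ∀ γ ∈ Gm Φ n, f γ ≤ f' γ) : Sf Φ n f ≤ Sf Φ n f' := by
  classical
  induction n generalizing f f' with
  | zero => exact h 1 (by simp [Gm])
  | succ n ih =>
    simp only [Sf]
    refine Finset.sum_le_sum fun φ hφ => ih _ _ fun γ hγ => h _ ?_
    simp only [Gm]
    exact Finset.mem_image.2 ⟨(γ, φ), Finset.mem_product.2 ⟨hγ, hφ⟩, rfl⟩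

theorem Sf_one (Φ : ℕ → Finset (X ≃ₜ X)) (n : ℕ) :
    Sf Φ (n + 1) (fun _ => 1) = (Φ (n + 1)).card * Sf Φ n (fun _ => 1) := by
  simp [Sf]

theorem Sf_one_pos (Φ : ℕ → Finset (X ≃ₜ X)) (hΦ : ∀ n, 0 < (Φ n).card) (n : ℕ) :
    0 < Sf Φ n (fun _ => 1) := by
  induction n with
  | zero => simp [Sf]
  | succ n ih =>
    rw [Sf_one]
    have : (0 : ℝ) < (Φ (n + 1)).card := by exact_mod_cast hΦ (n + 1)
    positivity

variable [CompactSpace X] [T2Space X]

theorem exists_nhd_disjoint (x₀ : X) (P : Finset ((X ≃ₜ X) × (X ≃ₜ X)))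
    (hP : ∀ p ∈ P, p.1 x₀ ≠ p.2 x₀) :
    ∃ V : Set X, IsOpen V ∧ x₀ ∈ V ∧ ∀ p ∈ P, ∀ z ∈ closure V, ∀ w ∈ closure V,
      p.1 z ≠ p.2 w := by
  classical
  choose! u hxu hu v hxv hv hd using fun (p : (X ≃ₜ X) × (X ≃ₜ X)) (hp : p ∈ P) =>
    exists_open_nhds_disjoint_closure (hP p hp)
  refine ⟨⋂ p ∈ P, (p.1 ⁻¹' (u p) ∩ p.2 ⁻¹' (v p)), ?_, ?_, ?_⟩
  · exact isOpen_biInter_finset fun p hp =>
      ((hu p hp).preimage p.1.continuous).inter ((hv p hp).preimage p.2.continuous)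
  · simp only [Set.mem_iInter]
    exact fun p hp => ⟨hxu p hp, hxv p hp⟩
  · intro p hp z hz w hw heq
    have hsub1 : (⋂ p ∈ P, (p.1 ⁻¹' (u p) ∩ p.2 ⁻¹' (v p))) ⊆ p.1 ⁻¹' (closure (u p)) := by
      intro t ht
      simp only [Set.mem_iInter] at ht
      exact subset_closure (ht p hp).1
    have hsub2 : (⋂ p ∈ P, (p.1 ⁻¹' (u p) ∩ p.2 ⁻¹' (v p))) ⊆ p.2 ⁻¹' (closure (v p)) := by
      intro t ht
      simp only [Set.mem_iInter] at ht
      exact subset_closure (ht p hp).2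
    have hz' := closure_minimal hsub1 (isClosed_closure.preimage p.1.continuous) hz
    have hw' := closure_minimal hsub2 (isClosed_closure.preimage p.2.continuous) hw
    have hw'' : p.1 z ∈ closure (v p) := by rw [heq]; exact hw'
    exact Set.disjoint_left.1 (hd p hp) hz' hw''

variable {G : Type*} [Group G] [MulAction G X] [ContinuousConstSMul G X]
  [MulAction.IsMinimal G X]

omit [CompactSpace X] in
theorem eq_of_equivariant (φ ψ : X ≃ₜ X) (hφ : ∀ (g : G) x, φ (g • x) = g • φ x)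
    (hψ : ∀ (g : G) x, ψ (g • x) = g • ψ x) (x : X) (h : φ x = ψ x) : φ = ψ := by
  have hcl : IsClosed {w : X | φ w = ψ w} := isClosed_eq φ.continuous ψ.continuous
  have hd : Dense (MulAction.orbit G x) := MulAction.IsMinimal.dense_orbit x
  have hsub : MulAction.orbit G x ⊆ {w : X | φ w = ψ w} := by
    rintro _ ⟨g, rfl⟩
    simp only [Set.mem_ofPred_eq]
    rw [hφ, hψ, h]
  have : closure (MulAction.orbit G x) ⊆ {w : X | φ w = ψ w} := closure_minimal hsub hcl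
  rw [hd.closure_eq] at this
  ext w
  exact this (Set.mem_univ w)

/-- Minimal flows with infinitely many automorphisms. -/
theorem good_of_automorphisms [Nonempty X]
    (h : {φ : X ≃ₜ X | ∀ (g : G) (x : X), φ (g • x) = g • φ x}.Infinite) : Good G := by
  classical
  obtain ⟨x₀⟩ : Nonempty X := inferInstance
  choose Φ hΦ hΦc using fun n : ℕ => h.exists_subset_card_eq (2 ^ n)
  have hΦeq : ∀ n, ∀ φ ∈ Φ n, ∀ (g : G) (x : X), φ (g • x) = g • φ x := fun n φ hφ => hΦ n hφ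
  have hinv : ∀ φ : X ≃ₜ X, (∀ (g : G) (x : X), φ (g • x) = g • φ x) →
      ∀ (g : G) (x : X), φ⁻¹ (g • x) = g • φ⁻¹ x := by
    intro φ hφ g x
    have h1 := hφ g (φ⁻¹ x)
    have h2 : φ (φ⁻¹ x) = x := φ.apply_symm_apply x
    rw [h2] at h1
    rw [← h1]
    exact φ.symm_apply_apply _
  have hGeq : ∀ n, ∀ γ ∈ Gm Φ n, ∀ (g : G) (x : X), γ (g • x) = g • γ x := by
    intro n
    induction n with
    | zero =>
      intro γ hγ
      simp only [Gm, Finset.mem_singleton] at hγ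
      subst hγ
      intro g x
      rfl
    | succ n ih =>
      intro γ hγ g x
      simp only [Gm] at hγ
      obtain ⟨p, hp, rfl⟩ := Finset.mem_image.1 hγ
      rw [Finset.mem_product] at hp
      rw [Homeomorph.mul_apply, Homeomorph.mul_apply, hinv p.2 (hΦeq _ _ hp.2),
        ih p.1 hp.1]
  -- choose the open sets
  have hex : ∀ n : ℕ, ∃ V : Set X, IsOpen V ∧ x₀ ∈ V ∧ ∀ γ ∈ Gm Φ n, ∀ φ ∈ Φ (n + 1),
      ∀ φ' ∈ Φ (n + 1), φ ≠ φ' → ∀ z ∈ closure V, ∀ w ∈ closure V,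
        (φ * γ⁻¹) z ≠ (φ' * γ⁻¹) w := by
    intro n
    obtain ⟨V, hV, hx, hVd⟩ := exists_nhd_disjoint x₀
      (((Gm Φ n ×ˢ (Φ (n + 1) ×ˢ Φ (n + 1))).filter (fun t => t.2.1 ≠ t.2.2)).image
        (fun t => (t.2.1 * t.1⁻¹, t.2.2 * t.1⁻¹))) (by
        intro p hp
        obtain ⟨t, ht, rfl⟩ := Finset.mem_image.1 hp
        rw [Finset.mem_filter, Finset.mem_product, Finset.mem_product] at ht
        obtain ⟨⟨h1, h2, h3⟩, h4⟩ := ht
        intro heq
        simp only [Homeomorph.mul_apply] at heq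
        exact h4 (eq_of_equivariant (G := G) _ _ (hΦeq _ _ h2) (hΦeq _ _ h3) _ heq))
    refine ⟨V, hV, hx, ?_⟩
    intro γ hγ φ hφ φ' hφ' hne z hz w hw
    refine hVd (φ * γ⁻¹, φ' * γ⁻¹) (Finset.mem_image.2 ⟨(γ, φ, φ'), ?_, rfl⟩) z hz w hw
    rw [Finset.mem_filter, Finset.mem_product, Finset.mem_product]
    exact ⟨⟨hγ, hφ, hφ'⟩, hne⟩
  choose V hVo hxV hVd using hex
  -- the main estimate
  have hmain : ∀ n j : ℕ, j < n → ∀ (g : G) (x : X),
      Sf Φ n (fun γ => if g⁻¹ • γ x ∈ closure (V j) then (1 : ℝ) else 0) ≤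
        (1 / 2 : ℝ) ^ (j + 1) * Sf Φ n (fun _ => 1) := by
    intro n
    induction n with
    | zero => intro j hj; omega
    | succ n ih =>
      intro j hj g x
      rcases Nat.lt_or_ge j n with hjn | hjn
      · simp only [Sf, Homeomorph.mul_apply]
        rw [Finset.mul_sum]
        refine Finset.sum_le_sum fun φ _ => ?_
        exact ih j hjn g (φ⁻¹ x)
      · have hj' : j = n := by omega
        subst hj'
        have h1 : Sf Φ (j + 1) (fun γ => if g⁻¹ • γ x ∈ closure (V j) then (1 : ℝ) else 0) =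
            Sf Φ j (fun γ => ∑ φ ∈ Φ (j + 1),
              if g⁻¹ • (γ * φ⁻¹) x ∈ closure (V j) then (1 : ℝ) else 0) := by
          rw [Sf_sum]
          rfl
        rw [h1, Sf_one, hΦc]
        have h2 : (1 / 2 : ℝ) ^ (j + 1) * (((2 ^ (j + 1) : ℕ) : ℝ) * Sf Φ j (fun _ => 1)) =
            Sf Φ j (fun _ => 1) := by
          push_cast
          rw [← mul_assoc, ← mul_pow]
          norm_num
        rw [h2]
        refine Sf_mono Φ j _ _ fun γ hγ => ?_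
        -- at most one `φ`
        rw [← Finset.sum_filter, Finset.sum_const, nsmul_eq_mul, mul_one]
        have h3 : ((Φ (j + 1)).filter (fun φ => g⁻¹ • (γ * φ⁻¹) x ∈ closure (V j))).card ≤ 1 := by
          rw [Finset.card_le_one]
          intro φ hφ φ' hφ'
          rw [Finset.mem_filter] at hφ hφ'
          by_contra hne
          refine hVd j γ hγ φ hφ.1 φ' hφ'.1 hne _ hφ.2 _ hφ'.2 ?_
          have e : ∀ ψ ∈ Φ (j + 1), (ψ * γ⁻¹) (g⁻¹ • (γ * ψ⁻¹) x) = g⁻¹ • x := by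
            intro ψ hψ
            rw [Homeomorph.mul_apply, Homeomorph.mul_apply,
              hinv γ (hGeq j γ hγ), hΦeq _ _ hψ]
            have e1 : γ⁻¹ (γ (ψ⁻¹ x)) = ψ⁻¹ x := γ.symm_apply_apply _
            have e2 : ψ (ψ⁻¹ x) = x := ψ.apply_symm_apply _
            rw [e1, e2]
          rw [e φ hφ.1, e φ' hφ'.1]
        exact_mod_cast h3
  refine good_of_flow V hVo (fun n => ⟨x₀, hxV n⟩) fun T hT => ?_
  obtain ⟨N, hN⟩ : ∃ N, ∀ p ∈ T, p.2 < N :=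
    ⟨(T.sup Prod.snd) + 1, fun p hp => Nat.lt_succ_of_le (Finset.le_sup (f := Prod.snd) hp)⟩
  by_contra hcon
  push Not at hcon
  have h1 : Sf Φ N (fun _ => 1) ≤ Sf Φ N (fun γ => ∑ p ∈ T,
      if p.1⁻¹ • γ x₀ ∈ closure (V p.2) then (1 : ℝ) else 0) := by
    refine Sf_mono Φ N _ _ fun γ _ => ?_
    obtain ⟨p, hp, hpx⟩ := hcon (γ x₀)
    have h2 : (1 : ℝ) = if p.1⁻¹ • γ x₀ ∈ closure (V p.2) then (1 : ℝ) else 0 := by
      rw [if_pos hpx]
    calc (1 : ℝ) = if p.1⁻¹ • γ x₀ ∈ closure (V p.2) then (1 : ℝ) else 0 := h2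
      _ ≤ _ := Finset.single_le_sum (f := fun p : G × ℕ =>
          if p.1⁻¹ • γ x₀ ∈ closure (V p.2) then (1 : ℝ) else 0)
          (fun q _ => by split_ifs <;> norm_num) hp
  rw [Sf_sum] at h1
  have h2 : ∑ p ∈ T, Sf Φ N (fun γ => if p.1⁻¹ • γ x₀ ∈ closure (V p.2) then (1 : ℝ) else 0) ≤
      ∑ p ∈ T, (1 / 2 : ℝ) ^ p.2 * Sf Φ N (fun _ => 1) := by
    refine Finset.sum_le_sum fun p hp => (hmain N p.2 (hN p hp) p.1 x₀).trans ?_
    refine mul_le_mul_of_nonneg_right ?_ (Sf_one_pos Φ (fun n => by rw [hΦc]; positivity) N).le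
    exact pow_le_pow_of_le_one (by norm_num) (by norm_num) (Nat.le_succ _)
  rw [← Finset.sum_mul] at h2
  have h3 := Sf_one_pos Φ (fun n => by rw [hΦc]; positivity) N
  have h4 := mul_lt_mul_of_pos_right hT h3
  linarith

end aut

end Pool.Agent.Helper34_Synd
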