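import Mathlib

set_option autoImplicit false

open scoped BigOperators

namespace Pool.Agent.Helper34_Synd

/-- A sequence with quasi-additivity is at bounded distance from a linear sequence. -/
theorem linear_of_quasi_additive (u : ℕ → ℝ) (δ : ℝ)
    (h : ∀ i j, |u (i + j) - u i - u j| ≤ δ) :
    ∃ τ : ℝ, ∀ k, |u k - τ * k| ≤ δ := by
  have hδ : 0 ≤ δ := (abs_nonneg _).trans (h 0 0)
  have hs1 : Subadditive (fun k => u k + δ) := by
    intro i j
    have := (abs_le.1 (h i j)).2
    simp only
    linarith
  have hs2 : Subadditive (fun k => -u k + δ) := by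
    intro i j
    have := (abs_le.1 (h i j)).1
    simp only
    linarith
  -- linear bounds
  have hlin : ∀ k : ℕ, |u k| ≤ (|u 1| + |u 0| + δ) * (k + 1) := by
    intro k
    induction k with
    | zero =>
      have := abs_nonneg (u 1)
      push_cast
      nlinarith [abs_nonneg (u 0)]
    | succ k ih =>
      have h1 := abs_le.1 (h k 1)
      have h2 := abs_le.1 ih
      have h3 := abs_le.1 (le_refl |u 1|)
      have h4 := abs_nonneg (u 0)
      rw [abs_le]
      push_cast
      constructor <;> nlinarith [h1.1, h1.2, h2.1, h2.2, h3.1, h3.2]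
  have hbd : ∀ (v : ℕ → ℝ), (∀ k : ℕ, -((|u 1| + |u 0| + δ) * (k + 1)) ≤ v k) →
      BddBelow (Set.range fun n => v n / n) := by
    intro v hv
    refine ⟨-(2 * (|u 1| + |u 0| + δ)), ?_⟩
    rintro _ ⟨n, rfl⟩
    have hB : 0 ≤ |u 1| + |u 0| + δ := by positivity
    rcases Nat.eq_zero_or_pos n with rfl | hn
    · simp; positivity
    · have hn' : (1 : ℝ) ≤ n := by exact_mod_cast hn
      simp only
      rw [le_div_iff₀ (by linarith)]
      have := hv n
      nlinarith
  have hb1 := hbd (fun k => u k + δ) (fun k => by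
    have := (abs_le.1 (hlin k)).1
    linarith)
  have hb2 := hbd (fun k => -u k + δ) (fun k => by
    have := (abs_le.1 (hlin k)).2
    linarith)
  have ht1 := hs1.tendsto_lim hb1
  have ht2 := hs2.tendsto_lim hb2
  have hδn : Filter.Tendsto (fun n : ℕ => 2 * δ / n) Filter.atTop (nhds 0) :=
    tendsto_const_div_atTop_nhds_zero_nat _
  have hlim : hs2.lim = -hs1.lim := by
    have h5 : Filter.Tendsto (fun n : ℕ => 2 * δ / n - (u n + δ) / n) Filter.atTop
        (nhds (0 - hs1.lim)) := hδn.sub ht1
    have h6 : (fun n : ℕ => 2 * δ / n - (u n + δ) / n) = fun n : ℕ => (-u n + δ) / n := by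
      funext n
      ring
    rw [h6] at h5
    have := tendsto_nhds_unique ht2 h5
    rw [this]; ring
  refine ⟨hs1.lim, fun k => ?_⟩
  rcases Nat.eq_zero_or_pos k with rfl | hk
  · have := h 0 0
    simp only [CharP.cast_eq_zero, mul_zero, sub_zero]
    simpa using this
  · have hk' : (0 : ℝ) < k := by exact_mod_cast hk
    have h7 := hs1.lim_le_div hb1 hk.ne'
    have h8 := hs2.lim_le_div hb2 hk.ne'
    rw [hlim] at h8
    rw [le_div_iff₀ hk'] at h7 h8
    rw [abs_le]
    constructor <;> linarith

/-- Orbit growth of a loxodromic isometry. -/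
theorem quasi_linear (a : ℕ → ℝ) (Δ c : ℝ) (hΔ : 0 ≤ Δ) (hc : 0 < c)
    (h0 : a 0 = 0)
    (hsub : ∀ i j, a (i + j) ≤ a i + a j)
    (hsub' : ∀ i l, a l ≤ a (i + l) + a i)
    (hlow : ∀ k : ℕ, c * k ≤ a k)
    (h4 : ∀ i j l, a (i + j) + a (j + l) ≤ max (a i + a l) (a (i + j + l) + a j) + Δ) :
    ∃ τ C : ℝ, 0 < τ ∧ ∀ k : ℕ, |a k - τ * k| ≤ C := by
  have hann : ∀ k, 0 ≤ a k := fun k => le_trans (by positivity) (hlow k)
  have hS : Subadditive a := fun m n => hsub m n
  have hbdd : BddBelow (Set.range fun n => a n / n) := by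
    refine ⟨0, ?_⟩
    rintro _ ⟨n, rfl⟩
    exact div_nonneg (hann n) (Nat.cast_nonneg n)
  have ht := hS.tendsto_lim hbdd
  set τ := hS.lim with hτ
  have hτle : ∀ n : ℕ, τ * n ≤ a n := by
    intro n
    rcases Nat.eq_zero_or_pos n with rfl | hn
    · simp [h0]
    · have h1 := hS.lim_le_div hbdd hn.ne'
      rwa [le_div_iff₀ (by exact_mod_cast hn)] at h1
  have hτpos : 0 < τ := by
    refine lt_of_lt_of_le hc (ge_of_tendsto ht ?_)
    filter_upwards [Filter.eventually_ge_atTop 1] with n hn
    rw [le_div_iff₀ (by exact_mod_cast hn)]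
    exact hlow n
  -- choose N
  obtain ⟨N, hN⟩ := Filter.eventually_atTop.1 (ht.eventually (gt_mem_nhds
    (show τ < τ + τ / 4 by linarith)))
  have hN' : ∀ n, N ≤ n → 1 ≤ n → a n ≤ (τ + τ / 4) * n := by
    intro n hn hn1
    have := hN n hn
    rw [div_lt_iff₀ (by exact_mod_cast hn1)] at this
    exact this.le
  set B : ℝ := ∑ k ∈ Finset.range N, a k with hB
  have hBk : ∀ k < N, a k ≤ B := fun k hk =>
    Finset.single_le_sum (f := a) (fun i _ => hann i) (Finset.mem_range.2 hk)
  have hB0 : 0 ≤ B := Finset.sum_nonneg fun k _ => hann k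
  obtain ⟨J, hJ⟩ := exists_nat_ge ((N : ℝ) + B / τ + 4 * Δ / τ + 1)
  have hd1 : 0 ≤ B / τ := by positivity
  have hd2 : 0 ≤ 4 * Δ / τ := by positivity
  have hJN : N ≤ J := by
    have : (N : ℝ) ≤ J := by linarith
    exact_mod_cast this
  have hN0 : (0 : ℝ) ≤ N := Nat.cast_nonneg N
  have hJ1 : 1 ≤ J := by
    have : (1 : ℝ) ≤ J := by linarith
    exact_mod_cast this
  have hJB : B ≤ τ * J := by
    have h1 : B / τ ≤ J := by linarith
    rwa [div_le_iff₀ hτpos, mul_comm] at h1
  have hJΔ : 4 * Δ + τ ≤ τ * J := by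
    have h1 : 4 * Δ / τ + 1 ≤ J := by linarith
    have h2 := mul_le_mul_of_nonneg_left h1 hτpos.le
    have h3 : τ * (4 * Δ / τ + 1) = 4 * Δ + τ := by field_simp
    linarith
  have hJpos : (0 : ℝ) < J := by exact_mod_cast hJ1
  have haJ : ∀ i, i ≤ J → a i ≤ (τ + τ / 4) * J := by
    intro i hi
    rcases Nat.lt_or_ge i N with h | h
    · have := hBk i h
      nlinarith
    · rcases Nat.eq_zero_or_pos i with rfl | hi0
      · rw [h0]; positivity
      · have h1 := hN' i h hi0
        have h2 : (i : ℝ) ≤ J := by exact_mod_cast hi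
        nlinarith
  -- step
  have hstep : ∀ i, a i - τ / 4 * J ≤ a (i + J) → a (i + J) + Δ < a (i + J + J) := by
    intro i hi
    have h5 := h4 i J J
    have h6 := hτle (J + J)
    push_cast at h6
    have h7 := haJ J le_rfl
    rcases le_total (a i + a J) (a (i + J + J) + a J) with h | h
    · rw [max_eq_right h] at h5
      nlinarith
    · rw [max_eq_left h] at h5
      nlinarith
  have hP : ∀ i, a i - τ / 4 * J ≤ a (i + J) := by
    intro i
    induction i using Nat.strong_induction_on with
    | _ i ih =>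
      rcases Nat.lt_or_ge i J with h | h
      · have h5 := haJ i h.le
        have h6 := hτle (i + J)
        push_cast at h6
        have h7 : (0 : ℝ) ≤ i := Nat.cast_nonneg i
        nlinarith
      · obtain ⟨i', rfl⟩ : ∃ i', i = i' + J := ⟨i - J, by omega⟩
        have h5 := hstep i' (ih i' (by omega))
        have h6 : 0 ≤ τ / 4 * J := by positivity
        linarith
  have hQ : ∀ i, J ≤ i → a i + Δ < a (i + J) := by
    intro i hi
    obtain ⟨i', rfl⟩ : ∃ i', i = i' + J := ⟨i - J, by omega⟩
    exact hstep i' (hP i')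
  set C : ℝ := 2 * ((τ + τ / 4) * J) with hC
  have hsup : ∀ i l, a i + a l - C ≤ a (i + l) := by
    intro i l
    rcases Nat.lt_or_ge i J with h | h
    · have h5 := haJ i h.le
      have h6 := hsub' i l
      linarith
    · rcases Nat.lt_or_ge l J with h' | h'
      · have h5 := haJ l h'.le
        have h6 := hsub' l i
        rw [add_comm l i] at h6
        linarith
      · have h5 := h4 i J l
        have h6 := hQ i h
        have h7 := hQ l h'
        rw [add_comm l J] at h7
        have h8 := haJ J le_rfl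
        have h9 : a (i + J + l) ≤ a (i + l) + a J := by
          have := hsub (i + l) J
          rwa [show i + l + J = i + J + l by omega] at this
        rcases le_total (a i + a l) (a (i + J + l) + a J) with h | h
        · rw [max_eq_right h] at h5
          linarith
        · rw [max_eq_left h] at h5
          linarith
  have hS2 : Subadditive (fun k => -a k + C) := by
    intro i l
    have := hsup i l
    simp only
    linarith
  have hC0 : 0 ≤ C := by positivity
  have ha1 : ∀ n : ℕ, a n ≤ n * a 1 := by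
    intro n
    induction n with
    | zero => simp [h0]
    | succ n ih =>
      have := hsub n 1
      push_cast
      linarith
  have hbdd2 : BddBelow (Set.range fun n => (-a n + C) / n) := by
    refine ⟨-a 1, ?_⟩
    rintro _ ⟨n, rfl⟩
    rcases Nat.eq_zero_or_pos n with rfl | hn
    · simp [hann 1]
    · have hn' : (0 : ℝ) < n := by exact_mod_cast hn
      simp only
      rw [le_div_iff₀ hn']
      have := ha1 n
      linarith
  have ht2 := hS2.tendsto_lim hbdd2
  have hlim : hS2.lim = -τ := by
    have hCn : Filter.Tendsto (fun n : ℕ => C / n) Filter.atTop (nhds 0) :=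
      tendsto_const_div_atTop_nhds_zero_nat _
    have h5 := hCn.sub ht
    have h6 : (fun n : ℕ => C / n - a n / n) = fun n : ℕ => (-a n + C) / n := by
      funext n
      ring
    rw [h6] at h5
    have := tendsto_nhds_unique ht2 h5
    rw [this]; ring
  refine ⟨τ, C, hτpos, fun k => ?_⟩
  rcases Nat.eq_zero_or_pos k with rfl | hk
  · simp [h0, hC0]
  · have hk' : (0 : ℝ) < k := by exact_mod_cast hk
    have h8 := hS2.lim_le_div hbdd2 hk.ne'
    rw [hlim, le_div_iff₀ hk'] at h8
    have h9 := hτle k
    rw [abs_le]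
    constructor <;> linarith

end Pool.Agent.Helper34_Synd
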