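import Pool.Agent.Helper34_Synd.Coarse
import Pool.Agent.Helper34_Synd.QuasiLinear

set_option autoImplicit false

open scoped BigOperators

namespace Pool.Agent.Helper34_Synd

/-- unbounded quasimorphisms give coarse windows -/
theorem coarseWindows_of_quasimorphism {G : Type*} [Group G] (φ : G → ℝ) (δ : ℝ)
    (h : ∀ x y, |φ (x * y) - φ x - φ y| ≤ δ) (hunb : ∀ C : ℝ, ∃ g, C < |φ g|) :
    CoarseWindows G := by
  have hδ : 0 ≤ δ := (abs_nonneg _).trans (h 1 1)
  obtain ⟨a, ha⟩ := hunb δ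
  obtain ⟨τ, hτ⟩ := linear_of_quasi_additive (fun k => φ (a ^ k)) δ (by
    intro i j
    simp only [pow_add]
    exact h _ _)
  have hτ0 : τ ≠ 0 := by
    rintro rfl
    have := hτ 1
    simp only [pow_one, zero_mul, sub_zero] at this
    linarith
  have hτpos : 0 < |τ| := abs_pos.2 hτ0
  refine ⟨fun x => φ x / τ, 3 * δ / |τ|, fun S M => ⟨1, fun _ m => a ^ m, fun y =>
    ⟨0, fun s _ => ⟨1, (φ s⁻¹ + φ y) / τ, Or.inl rfl, fun m _ => ?_⟩⟩⟩⟩
  have h1 := abs_le.1 (h s⁻¹ (a ^ m * y))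
  have h2 := abs_le.1 (h (a ^ m) y)
  have h3 := abs_le.1 (hτ m)
  have h4 : φ (s⁻¹ * (a ^ m * y)) / τ - ((φ s⁻¹ + φ y) / τ + ((1 : ℤ) : ℝ) * m) =
      (φ (s⁻¹ * (a ^ m * y)) - φ s⁻¹ - φ y - τ * m) / τ := by
    field_simp
    push_cast
    ring
  rw [h4, abs_div]
  apply div_le_div_of_nonneg_right _ hτpos.le
  rw [abs_le]
  constructor <;> linarith [h1.1, h1.2, h2.1, h2.2, h3.1, h3.2]

section hyp

variable {G X : Type*} [Group G] [PseudoMetricSpace X] [MulAction G X]

/-- The orbit of a loxodromic element. -/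
theorem orbit_quasi_linear (hiso : ∀ (g : G) (x y : X), dist (g • x) (g • y) = dist x y)
    (δ : ℝ) (h4 : ∀ x y z w : X, dist x y + dist z w ≤
      max (dist x z + dist y w) (dist x w + dist y z) + 2 * δ)
    (o : X) (h : G) (c : ℝ) (hc : 0 < c) (hlox : ∀ k : ℕ, c * k ≤ dist o (h ^ k • o)) :
    ∃ τ C : ℝ, 0 < τ ∧ ∀ k : ℕ, |dist o (h ^ k • o) - τ * k| ≤ C := by
  have hδ : 0 ≤ 2 * δ := by
    have := h4 o o o o
    simpa using this
  have hshift : ∀ i j : ℕ, dist (h ^ i • o) (h ^ (i + j) • o) = dist o (h ^ j • o) := by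
    intro i j
    rw [pow_add, mul_smul, hiso]
  refine quasi_linear (fun k => dist o (h ^ k • o)) (2 * δ) c hδ hc (by simp) ?_ ?_ hlox ?_
  · intro i j
    have := dist_triangle o (h ^ i • o) (h ^ (i + j) • o)
    rw [hshift] at this
    exact this
  · intro i l
    have := dist_triangle (h ^ i • o) o (h ^ (i + l) • o)
    rw [hshift, dist_comm (h ^ i • o) o] at this
    linarith
  · intro i j l
    have := h4 o (h ^ (i + j) • o) (h ^ i • o) (h ^ (i + j + l) • o)
    rw [hshift (i + j) l, show i + j + l = i + (j + l) by omega, hshift i (j + l),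
      dist_comm (h ^ (i + j) • o) (h ^ i • o), hshift i j] at this
    rw [show i + j + l = i + (j + l) by omega]
    exact this

theorem dist_zpow (hiso : ∀ (g : G) (x y : X), dist (g • x) (g • y) = dist x y)
    (o : X) (h : G) (i : ℤ) (n : ℕ) :
    dist (h ^ i • o) (h ^ (i + n) • o) = dist o (h ^ n • o) := by
  rw [zpow_add, mul_smul, hiso, zpow_natCast]

/-- Busemann function estimate in both directions (`ε = 1` or `ε = -1`). -/
theorem busemann_estimate (hiso : ∀ (g : G) (x y : X), dist (g • x) (g • y) = dist x y)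
    (δ : ℝ) (h4 : ∀ x y z w : X, dist x y + dist z w ≤
      max (dist x z + dist y w) (dist x w + dist y z) + 2 * δ)
    (o : X) (h : G) (τ C : ℝ) (hτ : 0 < τ)
    (hC : ∀ k : ℕ, |dist o (h ^ k • o) - τ * k| ≤ C) (z : X) (M : ℕ) :
    ∃ N0 : ℕ, ∀ N : ℕ, N0 ≤ N → ∀ m : ℕ, m ≤ M → ∀ ε : ℤ, (ε = 1 ∨ ε = -1) →
      |dist z (h ^ (ε * (N + m : ℕ)) • o) - dist z (h ^ (ε * (N : ℤ)) • o) - τ * m| ≤
        2 * δ + 2 * C := by
  have hδ : 0 ≤ 2 * δ := by
    have := h4 o o o o
    simpa using this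
  have hC0 : 0 ≤ C := (abs_nonneg _).trans (hC 0)
  obtain ⟨N0, hN0⟩ := exists_nat_gt ((dist z o + τ * M + 2 * C + 2 * δ) / τ)
  refine ⟨N0, fun N hN m hm ε hε => ?_⟩
  rw [div_lt_iff₀ hτ] at hN0
  have hNr : (N0 : ℝ) ≤ N := by exact_mod_cast hN
  have hmr : (m : ℝ) ≤ M := by exact_mod_cast hm
  -- distances from `o` along the axis
  have hax : ∀ n : ℕ, dist o (h ^ (ε * (n : ℤ)) • o) = dist o (h ^ n • o) := by
    intro n
    rcases hε with rfl | rfl
    · rw [one_mul, zpow_natCast]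
    · have := dist_zpow hiso o h (-(n : ℤ)) n
      rw [neg_add_cancel, zpow_zero, one_smul] at this
      rw [neg_one_mul, dist_comm, this]
  have hax2 : dist (h ^ (ε * (N : ℤ)) • o) (h ^ (ε * (N + m : ℕ)) • o) =
      dist o (h ^ m • o) := by
    rcases hε with rfl | rfl
    · have := dist_zpow hiso o h (N : ℤ) m
      rw [one_mul, one_mul]
      push_cast
      exact this
    · have := dist_zpow hiso o h (-((N : ℤ) + m)) m
      rw [show -((N : ℤ) + m) + m = -N by ring] at this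
      rw [neg_one_mul, neg_one_mul, dist_comm]
      push_cast
      exact this
  set y' := h ^ (ε * (N : ℤ)) • o with hy'
  set y := h ^ (ε * ((N + m : ℕ) : ℤ)) • o with hy
  have e1 := hax N
  have e2 := hax (N + m)
  rw [← hy'] at e1
  rw [← hy] at e2
  have c1 := abs_le.1 (hC N)
  have c2 := abs_le.1 (hC (N + m))
  have c3 := abs_le.1 (hC m)
  rw [← e1] at c1
  rw [← e2] at c2
  rw [← hax2] at c3
  push_cast at c2
  have q1 := h4 z y' o y
  have q2 := h4 z y o y'
  rw [dist_comm y' o] at q1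
  rw [dist_comm y y', dist_comm y o] at q2
  have hτN : τ * N0 ≤ τ * N := mul_le_mul_of_nonneg_left hNr hτ.le
  have hτm : τ * m ≤ τ * M := mul_le_mul_of_nonneg_left hmr hτ.le
  have hτm0 : 0 ≤ τ * m := by positivity
  have hd1 : 0 ≤ dist z y' := dist_nonneg
  have hd2 : 0 ≤ dist z y := dist_nonneg
  -- q1 : dist z y' + dist o y ≤ max (dist z o + dist y' y) (dist z y + dist o y')
  have r1 : dist z y' + dist o y ≤ dist z y + dist o y' + 2 * δ := by
    rcases le_total (dist z o + dist y' y) (dist z y + dist o y') with hh | hh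
    · rwa [max_eq_right hh] at q1
    · rw [max_eq_left hh] at q1
      nlinarith [c1.1, c2.1, c3.2]
  have r2 : dist z y + dist o y' ≤ dist z y' + dist o y + 2 * δ := by
    rcases le_total (dist z o + dist y' y) (dist z y' + dist o y) with hh | hh
    · rwa [max_eq_right hh] at q2
    · rw [max_eq_left hh] at q2
      nlinarith [c1.1, c2.1, c3.2]
  rw [abs_le]
  constructor <;> linarith [c1.1, c1.2, c2.1, c2.2]

/-- `V`-shape of the distance along an orbit of a loxodromic element. -/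
theorem v_shape (hiso : ∀ (g : G) (x y : X), dist (g • x) (g • y) = dist x y)
    (δ : ℝ) (h4 : ∀ x y z w : X, dist x y + dist z w ≤
      max (dist x z + dist y w) (dist x w + dist y z) + 2 * δ)
    (o : X) (h : G) (τ C : ℝ) (hτ : 0 < τ)
    (hC : ∀ k : ℕ, |dist o (h ^ k • o) - τ * k| ≤ C) :
    ∃ R E : ℝ, 0 ≤ R ∧ ∀ (c z : X) (M : ℕ), ∃ t θ₁ θ₂ : ℝ, ∀ m : ℕ, m ≤ M →
      (t + R < m → |dist c (h ^ m • z) - (θ₁ + τ * m)| ≤ E) ∧
      ((m : ℝ) < t - R → |dist c (h ^ m • z) - (θ₂ - τ * m)| ≤ E) := by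
  have hδ : 0 ≤ 2 * δ := by
    have := h4 o o o o
    simpa using this
  have hC0 : 0 ≤ C := (abs_nonneg _).trans (hC 0)
  set C₁ : ℝ := 2 * δ + 2 * C with hC₁
  have hC₁0 : 0 ≤ C₁ := by linarith
  refine ⟨(C₁ + δ) / τ, C₁ + 2 * δ, div_nonneg (by linarith) hτ.le, fun c z M => ?_⟩
  obtain ⟨N0, hN0⟩ := busemann_estimate hiso δ h4 o h τ C hτ hC z M
  set P := h ^ ((-1 : ℤ) * ((N0 + M : ℕ) : ℤ)) • o with hP
  set Q := h ^ ((1 : ℤ) * ((N0 + M : ℕ) : ℤ)) • o with hQ
  refine ⟨((dist c P + dist z Q) - (dist c Q + dist z P)) / (2 * τ),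
    dist c Q + dist z P - dist P Q, dist c P + dist z Q - dist P Q, fun m hm => ?_⟩
  -- distance to Q
  have d1 : dist (h ^ m • z) Q = dist z (h ^ ((1 : ℤ) * ((N0 + M - m : ℕ) : ℤ)) • o) := by
    have e : Q = h ^ m • (h ^ ((1 : ℤ) * ((N0 + M - m : ℕ) : ℤ)) • o) := by
      rw [hQ, ← mul_smul, ← zpow_natCast h m, ← zpow_add]
      congr 2
      push_cast [Nat.cast_sub (show m ≤ N0 + M by omega)]
      ring
    rw [e, hiso]
  have d2 : dist (h ^ m • z) P = dist z (h ^ ((-1 : ℤ) * ((N0 + M + m : ℕ) : ℤ)) • o) := by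
    have e : P = h ^ m • (h ^ ((-1 : ℤ) * ((N0 + M + m : ℕ) : ℤ)) • o) := by
      rw [hP, ← mul_smul, ← zpow_natCast h m, ← zpow_add]
      congr 2
      push_cast
      ring
    rw [e, hiso]
  have b1 := hN0 (N0 + M - m) (by omega) m hm 1 (Or.inl rfl)
  have b2 := hN0 (N0 + M) (by omega) m hm (-1) (Or.inr rfl)
  rw [show N0 + M - m + m = N0 + M by omega, ← hQ, ← d1] at b1
  rw [← hP, ← d2] at b2
  rw [abs_le] at b1 b2
  have q1 := h4 c (h ^ m • z) P Q
  have q2 := h4 c P (h ^ m • z) Q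
  have q3 := h4 c Q (h ^ m • z) P
  rw [dist_comm P (h ^ m • z)] at q2
  rw [dist_comm Q P, dist_comm Q (h ^ m • z)] at q3
  -- T1 = dist c w + dist P Q, T2 = dist c P + dist w Q, T3 = dist c Q + dist w P
  constructor
  · intro hm1
    rw [← sub_pos] at hm1
    have hm2 : 0 < ((m : ℝ) - (((dist c P + dist z Q) - (dist c Q + dist z P)) / (2 * τ) +
        (C₁ + δ) / τ)) * (2 * τ) := mul_pos hm1 (by positivity)
    have hm3 : ((m : ℝ) - (((dist c P + dist z Q) - (dist c Q + dist z P)) / (2 * τ) +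
        (C₁ + δ) / τ)) * (2 * τ) = 2 * τ * m - ((dist c P + dist z Q) - (dist c Q + dist z P)) -
        2 * (C₁ + δ) := by
      field_simp
      ring
    rw [hm3] at hm2
    have hgt : dist c P + dist (h ^ m • z) Q + 2 * δ < dist c Q + dist (h ^ m • z) P := by
      linarith [b1.1, b1.2, b2.1, b2.2]
    have r1 : dist c Q + dist (h ^ m • z) P ≤ dist c (h ^ m • z) + dist P Q + 2 * δ := by
      rcases le_total (dist c (h ^ m • z) + dist P Q) (dist c P + dist (h ^ m • z) Q) with hh | hh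
      · rw [max_eq_right hh] at q3
        linarith
      · rwa [max_eq_left hh] at q3
    have r2 : dist c (h ^ m • z) + dist P Q ≤ dist c Q + dist (h ^ m • z) P + 2 * δ := by
      rcases le_total (dist c P + dist (h ^ m • z) Q) (dist c Q + dist (h ^ m • z) P) with hh | hh
      · rwa [max_eq_right hh] at q1
      · rw [max_eq_left hh] at q1
        linarith
    rw [abs_le]
    constructor <;> linarith [b2.1, b2.2]
  · intro hm1
    rw [← sub_pos] at hm1
    have hm2 : 0 < ((((dist c P + dist z Q) - (dist c Q + dist z P)) / (2 * τ) -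
        (C₁ + δ) / τ) - (m : ℝ)) * (2 * τ) := mul_pos hm1 (by positivity)
    have hm3 : ((((dist c P + dist z Q) - (dist c Q + dist z P)) / (2 * τ) -
        (C₁ + δ) / τ) - (m : ℝ)) * (2 * τ) = ((dist c P + dist z Q) - (dist c Q + dist z P)) -
        2 * (C₁ + δ) - 2 * τ * m := by
      field_simp
    rw [hm3] at hm2
    have hgt : dist c Q + dist (h ^ m • z) P + 2 * δ < dist c P + dist (h ^ m • z) Q := by
      linarith [b1.1, b1.2, b2.1, b2.2]
    have r1 : dist c P + dist (h ^ m • z) Q ≤ dist c (h ^ m • z) + dist P Q + 2 * δ := by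
      rcases le_total (dist c (h ^ m • z) + dist P Q) (dist c Q + dist (h ^ m • z) P) with hh | hh
      · rw [max_eq_right hh] at q2
        linarith
      · rwa [max_eq_left hh] at q2
    have r2 : dist c (h ^ m • z) + dist P Q ≤ dist c P + dist (h ^ m • z) Q + 2 * δ := by
      rcases le_total (dist c P + dist (h ^ m • z) Q) (dist c Q + dist (h ^ m • z) P) with hh | hh
      · rw [max_eq_right hh] at q1
        linarith
      · rwa [max_eq_left hh] at q1
    rw [abs_le]
    constructor <;> linarith [b1.1, b1.2]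

/-- Isometric actions on Gromov hyperbolic spaces with a loxodromic element. -/
theorem coarseWindows_of_loxodromic
    (hiso : ∀ (g : G) (x y : X), dist (g • x) (g • y) = dist x y)
    (δ : ℝ) (h4 : ∀ x y z w : X, dist x y + dist z w ≤
      max (dist x z + dist y w) (dist x w + dist y z) + 2 * δ)
    (o : X) (h : G) (c : ℝ) (hc : 0 < c) (hlox : ∀ k : ℕ, c * k ≤ dist o (h ^ k • o)) :
    CoarseWindows G := by
  classical
  obtain ⟨τ, C, hτ, hC⟩ := orbit_quasi_linear hiso δ h4 o h c hc hlox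
  obtain ⟨R, E, hR, hV⟩ := v_shape hiso δ h4 o h τ C hτ hC
  obtain ⟨R', hR'⟩ := exists_nat_gt R
  refine ⟨fun x => dist o (x • o) / τ, E / τ, fun S M => ?_⟩
  set L : ℕ := M + 2 * R' + 1 with hL
  refine ⟨S.card + 1, fun j m => h ^ ((j : ℕ) * L + m), fun y => ?_⟩
  choose t θ₁ θ₂ hV' using fun s : G => hV (s • o) (y • o) ((S.card + 1) * L)
  -- a block is good for `s` if it lies entirely on one side
  obtain ⟨j, hj⟩ : ∃ j : Fin (S.card + 1), ∀ s ∈ S,
      (t s + R < ((j : ℕ) * L : ℕ)) ∨ (((j : ℕ) * L + M : ℕ) < t s - R) := by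
    by_contra hcon
    push Not at hcon
    choose f hf hf1 hf2 using hcon
    have hinj : Function.Injective f := by
      intro j j' hjj
      by_contra hne
      rcases lt_or_gt_of_ne hne with hlt | hlt
      · have h1 := hf1 j'
        have h2 := hf2 j
        rw [hjj] at h2
        have h3 : (j : ℕ) * L + L ≤ (j' : ℕ) * L := by
          have : (j : ℕ) + 1 ≤ j' := hlt
          nlinarith
        have h4 : (((j : ℕ) * L + L : ℕ) : ℝ) ≤ (((j' : ℕ) * L : ℕ) : ℝ) := by exact_mod_cast h3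
        push_cast at h1 h2 h4
        rw [hL] at h1 h2 h4
        push_cast at h1 h2 h4
        nlinarith
      · have h1 := hf1 j
        have h2 := hf2 j'
        rw [hjj] at h1
        have h3 : (j' : ℕ) * L + L ≤ (j : ℕ) * L := by
          have : (j' : ℕ) + 1 ≤ j := hlt
          nlinarith
        have h4 : (((j' : ℕ) * L + L : ℕ) : ℝ) ≤ (((j : ℕ) * L : ℕ) : ℝ) := by exact_mod_cast h3
        push_cast at h1 h2 h4
        rw [hL] at h1 h2 h4
        push_cast at h1 h2 h4
        nlinarith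
    have h5 : Fintype.card (Fin (S.card + 1)) ≤ S.card :=
      Finset.card_le_card_of_injOn f (fun j _ => hf j) (hinj.injOn)
    rw [Fintype.card_fin] at h5
    omega
  refine ⟨j, fun s hs => ?_⟩
  have hdist : ∀ m : ℕ, dist o ((s⁻¹ * (h ^ ((j : ℕ) * L + m) * y)) • o) =
      dist (s • o) (h ^ ((j : ℕ) * L + m) • y • o) := by
    intro m
    rw [← hiso s o, ← mul_smul, ← mul_smul]
    congr 2
    group
  have hle : ∀ m < M, (j : ℕ) * L + m ≤ (S.card + 1) * L := by
    intro m hm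
    have h1 : (j : ℕ) + 1 ≤ S.card + 1 := j.2
    have h2 := Nat.mul_le_mul_right L h1
    have h3 : m ≤ L := by omega
    nlinarith
  rcases hj s hs with h1 | h1
  · refine ⟨1, θ₁ s / τ + ((j : ℕ) * L : ℕ), Or.inl rfl, fun m hm => ?_⟩
    have h2 := (hV' s ((j : ℕ) * L + m) (hle m hm)).1 (by
      push_cast at h1 ⊢
      have : (0 : ℝ) ≤ m := Nat.cast_nonneg m
      linarith)
    beta_reduce
    rw [hdist]
    have h3 : dist (s • o) (h ^ ((j : ℕ) * L + m) • y • o) / τ -
        (θ₁ s / τ + ((j : ℕ) * L : ℕ) + ((1 : ℤ) : ℝ) * m) =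
        (dist (s • o) (h ^ ((j : ℕ) * L + m) • y • o) -
          (θ₁ s + τ * (((j : ℕ) * L + m : ℕ) : ℝ))) / τ := by
      field_simp
      push_cast
      ring
    rw [h3, abs_div, abs_of_pos hτ]
    exact div_le_div_of_nonneg_right h2 hτ.le
  · refine ⟨-1, θ₂ s / τ - ((j : ℕ) * L : ℕ), Or.inr rfl, fun m hm => ?_⟩
    have h2 := (hV' s ((j : ℕ) * L + m) (hle m hm)).2 (by
      push_cast at h1 ⊢
      have : (m : ℝ) ≤ M := by exact_mod_cast hm.le
      linarith)
    beta_reduce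
    rw [hdist]
    have h3 : dist (s • o) (h ^ ((j : ℕ) * L + m) • y • o) / τ -
        (θ₂ s / τ - ((j : ℕ) * L : ℕ) + ((-1 : ℤ) : ℝ) * m) =
        (dist (s • o) (h ^ ((j : ℕ) * L + m) • y • o) -
          (θ₂ s - τ * (((j : ℕ) * L + m : ℕ) : ℝ))) / τ := by
      field_simp
      push_cast
      ring
    rw [h3, abs_div, abs_of_pos hτ]
    exact div_le_div_of_nonneg_right h2 hτ.le

end hyp

end Pool.Agent.Helper34_Synd
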