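import Pool.Agent.Helper34_Synd.Amenable

set_option autoImplicit false

open scoped BigOperators Pointwise

namespace Pool.Agent.Helper34_Synd

/-- A locally finite group is amenable. -/
theorem amenable_of_locallyFinite {N : Type*} [Group N]
    (h : ∀ S : Finset N, (Subgroup.closure (S : Set N) : Set N).Finite) : Amenable N := by
  classical
  let P : Finset N → Finset N := fun S => (h S).toFinset
  have hPmem : ∀ S x, x ∈ P S ↔ x ∈ Subgroup.closure (S : Set N) := by
    intro S x
    simp [P]
  have hPpos : ∀ S, (0 : ℝ) < (P S).card := by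
    intro S
    have : 0 < (P S).card := Finset.card_pos.2 ⟨1, (hPmem S 1).2 (one_mem _)⟩
    exact_mod_cast this
  let U : Ultrafilter (Finset N) := Ultrafilter.of Filter.atTop
  have hU : (U : Filter (Finset N)) ≤ Filter.atTop := Ultrafilter.of_le _
  let r : Set N → Finset N → ℝ := fun A S => ((P S).filter (· ∈ A)).card / (P S).card
  have hr : ∀ A S, r A S ∈ Set.Icc (0 : ℝ) 1 := by
    intro A S
    refine ⟨by positivity, ?_⟩
    rw [div_le_one (hPpos S)]
    exact_mod_cast Finset.card_filter_le _ _
  have hlim : ∀ A, ∃ l : ℝ, Filter.Tendsto (r A) U (nhds l) := by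
    intro A
    have hc : IsCompact (Set.Icc (0 : ℝ) 1) := isCompact_Icc
    have := hc.ultrafilter_le_nhds (U.map (r A)) (by
      rw [Filter.le_principal_iff]
      exact Filter.mem_map.2 (Filter.univ_mem' (hr A)))
    obtain ⟨l, _, hl⟩ := this
    exact ⟨l, hl⟩
  choose m hm using hlim
  have huniq : ∀ A l, Filter.Tendsto (r A) U (nhds l) → m A = l := fun A l hl =>
    tendsto_nhds_unique (hm A) hl
  refine ⟨m, ?_, ?_, ?_, ?_⟩
  · intro A
    exact ge_of_tendsto' (hm A) fun S => (hr A S).1
  · apply huniq
    have : r Set.univ = fun _ => 1 := by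
      funext S
      simp only [r, Set.mem_univ, Finset.filter_true]
      exact div_self (hPpos S).ne'
    rw [this]
    exact tendsto_const_nhds
  · intro A B hAB
    apply huniq
    have : r (A ∪ B) = fun S => r A S + r B S := by
      funext S
      simp only [r]
      rw [← add_div, ← Nat.cast_add, ← Finset.card_union_of_disjoint]
      · congr 3
        ext x
        simp only [Finset.mem_filter, Finset.mem_union, Set.mem_union]
        tauto
      · rw [Finset.disjoint_left]
        intro x hx hx'
        exact Set.disjoint_left.1 hAB (Finset.mem_filter.1 hx).2 (Finset.mem_filter.1 hx').2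
    rw [this]
    exact (hm A).add (hm B)
  · intro g A
    apply huniq
    refine (hm A).congr' ?_
    apply hU
    filter_upwards [Filter.eventually_ge_atTop {g}] with S hS
    have hg : g ∈ Subgroup.closure (S : Set N) :=
      Subgroup.subset_closure (hS (Finset.mem_singleton_self g))
    simp only [r]
    congr 2
    refine Finset.card_bij (fun x _ => g * x) ?_ ?_ ?_
    · intro x hx
      rw [Finset.mem_filter, hPmem] at hx ⊢
      exact ⟨mul_mem hg hx.1, x, hx.2, rfl⟩
    · intro x _ y _ hxy
      exact mul_left_cancel hxy
    · intro y hy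
      rw [Finset.mem_filter, hPmem] at hy
      obtain ⟨hy1, x, hx, rfl⟩ := hy
      refine ⟨x, ?_, rfl⟩
      rw [Finset.mem_filter, hPmem]
      refine ⟨?_, hx⟩
      have := mul_mem (inv_mem hg) hy1
      simpa using this

end Pool.Agent.Helper34_Synd
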