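import Pool.Agent.Helper34_Synd.Sections
import Pool.Agent.Helper34_Synd.LocFin

set_option autoImplicit false

open scoped BigOperators

namespace Pool.Agent.Helper34_Synd

/-- Infinite countable normal subgroups. -/
theorem good_of_normal_countable {G : Type*} [Group G] (N : Subgroup G) [N.Normal] [Infinite N]
    [Countable N] : Good G := by
  classical
  by_cases h : ∀ S : Finset N, (Subgroup.closure (S : Set N) : Set N).Finite
  · exact good_of_normal_amenable N (amenable_of_locallyFinite h)
  · push Not at h
    obtain ⟨S, hS⟩ := h
    refine good_of_sections N fun S' => ?_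
    refine ⟨(Subgroup.closure (S : Set N)).map N.subtype, ?_, ?_, ?_⟩
    · exact ⟨S.image N.subtype, by rw [Finset.coe_image, ← MonoidHom.map_closure]⟩
    · rw [Subgroup.coe_map]
      exact hS.image (N.subtype_injective.injOn)
    · intro s _ k hk
      obtain ⟨n, _, rfl⟩ := hk
      have := Subgroup.Normal.conj_mem (inferInstance : N.Normal) n n.2 s⁻¹
      simpa using this

end Pool.Agent.Helper34_Synd
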