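import Pool.Agent.Helper34_Synd.SparseMain
import Pool.Agent.Helper34_Synd.Basic

set_option autoImplicit false

open scoped BigOperators Pointwise

namespace Pool.Agent.Helper34_Synd

open Classical in
theorem growth {Λ : Type*} [Group Λ] [DecidableEq Λ] (S : Finset Λ) (h1 : (1 : Λ) ∈ S)
    (hS : (Subgroup.closure (S : Set Λ) : Set Λ).Infinite) : ∀ m, m < (S ^ m).card := by
  have hsub : ∀ m, S ^ m ⊆ S ^ (m + 1) := by
    intro m
    rw [pow_succ]
    intro x hx
    exact Finset.mem_mul.2 ⟨x, hx, 1, h1, mul_one x⟩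
  have hone : ∀ m, (1 : Λ) ∈ S ^ m := by
    intro m
    induction m with
    | zero => simp
    | succ m ih => exact hsub m ih
  intro m
  induction m with
  | zero => simp
  | succ m ih =>
    refine lt_of_le_of_lt (Nat.succ_le_of_lt ih) (Finset.card_lt_card ?_)
    refine (Finset.ssubset_iff_subset_ne).2 ⟨hsub m, fun heq => ?_⟩
    have hcl : ∀ x ∈ Subgroup.closure (S : Set Λ), ∀ y ∈ S ^ m, y * x ∈ S ^ m := by
      intro x hx
      induction hx using Subgroup.closure_induction with
      | mem x hx =>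
        intro y hy
        rw [heq, pow_succ]
        exact Finset.mul_mem_mul hy hx
      | one => intro y hy; simpa using hy
      | mul a b _ _ iha ihb =>
        intro y hy
        rw [← mul_assoc]
        exact ihb _ (iha _ hy)
      | inv a _ iha =>
        intro y hy
        have hinj : Set.InjOn (fun y => y * a) (S ^ m : Finset Λ) :=
          fun y _ z _ h => mul_right_cancel h
        have hsurj := Finset.surjOn_of_injOn_of_card_le (s := S ^ m) (t := S ^ m)
          (fun y => y * a) (fun y hy => iha y hy) hinj le_rfl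
        obtain ⟨z, hz, hzy⟩ := hsurj hy
        have : y * a⁻¹ = z := by rw [← hzy]; simp
        rw [this]
        exact hz
    apply hS
    refine (Finset.finite_toSet (S ^ m)).subset ?_
    intro x hx
    have h3 := hcl x hx 1 (hone m)
    rw [one_mul] at h3
    exact h3

open Classical in
theorem exists_sparse_countable {H : Type*} [Group H] [DecidableEq H] [Infinite H] [Countable H]
    (ε : ℝ) (hε : 0 < ε) :
    ∃ D : Set H, (∃ K : Finset H, ∀ h : H, ∃ k ∈ K, k * h ∈ D) ∧
      ∀ (u : H) (S : Finset H), (∀ m, m < (S ^ m).card) → ∃ M : ℕ, ∀ m ≥ M, ∀ h : H,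
        (((S ^ m).filter (fun s => u * s * h ∈ D)).card : ℝ) ≤ ε * (S ^ m).card := by
  obtain ⟨e, he⟩ := exists_surjective_nat (H × Finset H)
  choose R hR using fun m : ℕ => Infinite.exists_subset_card_eq H (m + 1)
  let F : ℕ → ℕ → Finset H := fun j m =>
    if ∀ m, m < ((e j).2 ^ m).card then ((e j).2 ^ m).image (fun s => (e j).1 * s) else R m
  have hF : ∀ j m, m < (F j m).card := by
    intro j m
    simp only [F]
    split_ifs with h
    · rw [Finset.card_image_of_injective _ (mul_right_injective _)]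
      exact h m
    · rw [hR]; omega
  obtain ⟨D, hD1, hD2⟩ := exists_sparse F hF ε hε
  refine ⟨D, hD1, fun u S hS => ?_⟩
  obtain ⟨j, hj⟩ := he (u, S)
  obtain ⟨M, hM⟩ := hD2 j
  refine ⟨M, fun m hm h => ?_⟩
  have h1 := hM m hm h
  have hFj : F j m = (S ^ m).image (fun s => u * s) := by
    simp only [F, hj, if_pos hS]
  rw [hFj, Finset.card_image_of_injective _ (mul_right_injective _)] at h1
  refine le_trans (le_of_eq ?_) h1
  congr 1
  rw [← Finset.card_image_of_injective _ (mul_right_injective u)]
  congr 1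
  ext v
  simp only [Finset.mem_image, Finset.mem_filter]
  constructor
  · rintro ⟨s, ⟨hs, hc⟩, rfl⟩
    exact ⟨⟨s, hs, rfl⟩, hc⟩
  · rintro ⟨⟨s, hs, rfl⟩, hc⟩
    exact ⟨s, ⟨hs, hc⟩, rfl⟩

open Classical in
theorem iterate_sparse.{u, v} {Λ : Type u} [Group Λ] [DecidableEq Λ] {H : Type v} [Group H] {I : Type*}
    (S : Finset Λ) (hS : ∀ m, (S ^ m).Nonempty)
    (φ : I → (Λ →* H)) (D : I → Set H) (ε : I → ℝ) (T : Finset I) :
    (∀ i ∈ T, ∀ u : Λ, ∃ M : ℕ, ∀ m ≥ M, ∀ h : H,
      (((S ^ m).filter (fun s => φ i u * φ i s * h ∈ D i)).card : ℝ) ≤ ε i * (S ^ m).card) →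
    ∀ U : Finset Λ, ∃ (ι : Type u) (_ : Fintype ι) (_ : Nonempty ι) (b : ι → Λ),
      ∀ i ∈ T, ∀ u ∈ U, ∀ h : H,
        ((Finset.univ.filter (fun j => φ i (u * b j) * h ∈ D i)).card : ℝ) ≤
          ε i * Fintype.card ι := by
  induction T using Finset.induction_on with
  | empty =>
    intro _ U
    exact ⟨PUnit, inferInstance, inferInstance, fun _ => 1, by simp⟩
  | insert i T hi ih =>
    intro hM U
    choose M hM' using hM i (Finset.mem_insert_self _ _)
    obtain ⟨m, hm⟩ : ∃ m, ∀ u ∈ U, M u ≤ m := ⟨U.sup M, fun u hu => Finset.le_sup hu⟩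
    obtain ⟨ι, _, _, b, hb⟩ := ih (fun j hj => hM j (Finset.mem_insert_of_mem hj)) (U * S ^ m)
    obtain ⟨s0, hs0⟩ := hS m
    have : Nonempty {s // s ∈ S ^ m} := ⟨⟨s0, hs0⟩⟩
    refine ⟨{s // s ∈ S ^ m} × ι, inferInstance, inferInstance, fun p => p.1 * b p.2, ?_⟩
    intro j hj u hu h
    rw [Fintype.card_prod, Fintype.card_coe]
    push_cast
    rcases Finset.mem_insert.1 hj with rfl | hj
    · -- new one
      have h1 : ((Finset.univ.filter
          (fun p : {s // s ∈ S ^ m} × ι => φ j (u * (p.1 * b p.2)) * h ∈ D j)).card : ℝ) =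
          ∑ i : ι, (((S ^ m).filter (fun s => φ j u * φ j s * (φ j (b i) * h) ∈ D j)).card : ℝ) := by
        rw [Finset.card_filter, Fintype.sum_prod_type_right]
        push_cast
        refine Finset.sum_congr rfl fun i _ => ?_
        rw [Finset.card_filter]
        push_cast
        rw [← Finset.sum_coe_sort (S ^ m)]
        refine Finset.sum_congr rfl fun s _ => ?_
        simp only [map_mul, mul_assoc]
      rw [h1]
      calc _ ≤ ∑ i : ι, ε j * (S ^ m).card := by
            refine Finset.sum_le_sum fun i _ => ?_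
            exact hM' u m (hm u hu) _
        _ = ε j * ((S ^ m).card * Fintype.card ι) := by
            rw [Finset.sum_const, nsmul_eq_mul, Finset.card_univ]; ring
    · have h1 : ((Finset.univ.filter
          (fun p : {s // s ∈ S ^ m} × ι => φ j (u * (p.1 * b p.2)) * h ∈ D j)).card : ℝ) =
          ∑ s : {s // s ∈ S ^ m}, ((Finset.univ.filter
            (fun i : ι => φ j ((u * s) * b i) * h ∈ D j)).card : ℝ) := by
        rw [Finset.card_filter, Fintype.sum_prod_type]
        push_cast
        refine Finset.sum_congr rfl fun s _ => ?_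
        rw [Finset.card_filter]
        push_cast
        refine Finset.sum_congr rfl fun i _ => ?_
        simp only [mul_assoc]
      rw [h1]
      calc _ ≤ ∑ s : {s // s ∈ S ^ m}, ε j * Fintype.card ι := by
            refine Finset.sum_le_sum fun s _ => ?_
            exact hb j hj (u * s) (Finset.mul_mem_mul hu s.2) h
        _ = ε j * ((S ^ m).card * Fintype.card ι) := by
            rw [Finset.sum_const, nsmul_eq_mul, Finset.card_univ, Fintype.card_coe]; ring

open Classical in
/-- Coinduction of sparse syndetic sets: a countable subgroup `H` such that for every finite set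
`S` of `G` the conjugates `s H s⁻¹` (`s ∈ S`) have a common infinite finitely generated
subgroup. -/
theorem good_of_sections {G : Type*} [Group G] (H : Subgroup G) [Countable H]
    (hH : ∀ S : Finset G, ∃ Λ : Subgroup G, Λ.FG ∧ (Λ : Set G).Infinite ∧
      ∀ s ∈ S, ∀ k ∈ Λ, s⁻¹ * k * s ∈ H) : Good G := by
  have hinf : Infinite H := by
    obtain ⟨Λ, _, h2, h3⟩ := hH {1}
    have h4 : (Λ : Set G) ⊆ (H : Set G) := by
      intro k hk
      have := h3 1 (Finset.mem_singleton_self _) k hk
      simpa using this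
    exact (h2.mono h4).to_subtype
  choose D hD1 hD2 using fun n : ℕ =>
    exists_sparse_countable (H := H) ((1 / 2 : ℝ) ^ n) (by positivity)
  refine good_of_subgroup H D ?_ ?_
  · intro n
    obtain ⟨K, hK⟩ := hD1 n
    refine ⟨K.image (fun k => k⁻¹), fun g => ?_⟩
    obtain ⟨k, hk, hkD⟩ := hK g
    exact ⟨k⁻¹, Finset.mem_image_of_mem _ hk, by simpa using hkD⟩
  · intro T hT
    obtain ⟨Λ, hFG, hΛ, hΛH⟩ := hH (T.image Prod.fst)
    have hΛT : ∀ p ∈ T, ∀ k ∈ Λ, p.1⁻¹ * k * p.1 ∈ H := fun p hp k hk =>
      hΛH p.1 (Finset.mem_image_of_mem _ hp) k hk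
    -- generating set
    obtain ⟨S0, hS0⟩ := Group.fg_def.1 ((Group.fg_iff_subgroup_fg Λ).2 hFG)
    set S : Finset Λ := insert 1 S0 with hS
    have hScl : (Subgroup.closure (S : Set Λ) : Set Λ).Infinite := by
      have h5 : Subgroup.closure (S : Set Λ) = ⊤ := by
        rw [eq_top_iff, ← hS0]
        apply Subgroup.closure_mono
        intro x hx
        exact Finset.mem_insert_of_mem hx
      rw [h5]
      have : Infinite Λ := hΛ.to_subtype
      exact Set.infinite_univ
    have hgrow := growth S (Finset.mem_insert_self _ _) hScl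
    -- the homomorphisms
    let φ : {p // p ∈ T} → (Λ →* H) := fun p =>
      { toFun := fun k => ⟨p.1.1⁻¹ * k * p.1.1, hΛT p.1 p.2 k k.2⟩
        map_one' := by ext; simp
        map_mul' := by intro a b; ext; simp [mul_assoc] }
    have hφinj : ∀ p, Function.Injective (φ p) := by
      intro p a b hab
      have h6 : p.1.1⁻¹ * (a : G) * p.1.1 = p.1.1⁻¹ * (b : G) * p.1.1 := congrArg Subtype.val hab
      apply Subtype.ext
      simpa using h6
    obtain ⟨ι, _, _, b, hb⟩ := iterate_sparse S (fun m => Finset.card_pos.1 (by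
        have := hgrow m; omega)) φ (fun p => D p.1.2) (fun p => (1 / 2 : ℝ) ^ p.1.2)
      Finset.univ (by
        intro p _ u
        have himg : ∀ m, (S.image (φ p)) ^ m = (S ^ m).image (φ p) := by
          intro m
          exact (Finset.image_pow (φ p) S m).symm
        obtain ⟨M, hM⟩ := hD2 p.1.2 (φ p u) (S.image (φ p)) (by
          intro m
          rw [himg, Finset.card_image_of_injective _ (hφinj p)]
          exact hgrow m)
        refine ⟨M, fun m hm h => ?_⟩
        have h7 := hM m hm h
        rw [himg, Finset.card_image_of_injective _ (hφinj p)] at h7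
        refine le_trans (le_of_eq ?_) h7
        congr 1
        rw [← Finset.card_image_of_injective _ (hφinj p)]
        congr 1
        ext v
        simp only [Finset.mem_image, Finset.mem_filter]
        constructor
        · rintro ⟨s, ⟨hs, hc⟩, rfl⟩
          exact ⟨⟨s, hs, rfl⟩, hc⟩
        · rintro ⟨⟨s, hs, rfl⟩, hc⟩
          exact ⟨s, ⟨hs, hc⟩, rfl⟩) {1}
    refine ⟨Finset.univ.image (fun j => ((b j : Λ) : G)), fun c => ?_⟩
    -- counting
    by_contra hcon
    push Not at hcon
    have hcover : (Finset.univ : Finset ι) ⊆ (Finset.univ : Finset {p // p ∈ T}).biUnion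
        (fun p => Finset.univ.filter (fun j => φ p (1 * b j) * c p.1.1 ∈ D p.1.2)) := by
      intro j _
      obtain ⟨p, hp, hpc⟩ := hcon (b j : G) (Finset.mem_image_of_mem _ (Finset.mem_univ j))
      rw [Finset.mem_biUnion]
      refine ⟨⟨p, hp⟩, Finset.mem_univ _, ?_⟩
      simp only [Finset.mem_filter, Finset.mem_univ, true_and]
      have := hpc (hΛT p hp (b j) (b j).2)
      convert this using 2
      ext
      simp [φ]
    have h8 : (Fintype.card ι : ℝ) ≤ ∑ p : {p // p ∈ T}, (1 / 2 : ℝ) ^ p.1.2 * Fintype.card ι := by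
      have h9 := (Finset.card_le_card hcover).trans Finset.card_biUnion_le
      rw [Finset.card_univ] at h9
      have h10 : (Fintype.card ι : ℝ) ≤ ∑ p : {p // p ∈ T},
          ((Finset.univ.filter (fun j => φ p (1 * b j) * c p.1.1 ∈ D p.1.2)).card : ℝ) := by
        exact_mod_cast h9
      refine h10.trans (Finset.sum_le_sum fun p _ => ?_)
      exact hb p (Finset.mem_univ _) 1 (Finset.mem_singleton_self _) (c p.1.1)
    rw [← Finset.sum_mul] at h8
    have h11 : ∑ p : {p // p ∈ T}, (1 / 2 : ℝ) ^ p.1.2 = ∑ p ∈ T, (1 / 2 : ℝ) ^ p.2 :=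
      Finset.sum_coe_sort T (fun p => (1 / 2 : ℝ) ^ p.2)
    rw [h11] at h8
    have h12 : (0 : ℝ) < Fintype.card ι := by exact_mod_cast Fintype.card_pos
    have h13 := mul_lt_mul_of_pos_right hT h12
    linarith

end Pool.Agent.Helper34_Synd
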