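import Pool.Agent.Common_LLL.Basic

set_option autoImplicit false

open scoped BigOperators Pointwise

namespace Pool.Agent.Helper34_Synd

open Pool.Agent.Common_LLL

theorem nat_mul_half_pow_le (t : ℕ) : (t : ℝ) * (1 / 2 : ℝ) ^ t ≤ (3 / 4 : ℝ) ^ t := by
  have h : ∀ t : ℕ, (t : ℝ) ≤ (3 / 2 : ℝ) ^ t := by
    intro t
    induction t with
    | zero => simp
    | succ n ih =>
      rcases Nat.lt_or_ge n 2 with hn | hn
      · interval_cases n <;> norm_num
      · have : (2 : ℝ) ≤ n := by exact_mod_cast hn
        rw [pow_succ]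
        push_cast
        nlinarith
  have h1 := h t
  have h2 : (3 / 4 : ℝ) ^ t = (3 / 2 : ℝ) ^ t * (1 / 2 : ℝ) ^ t := by
    rw [← mul_pow]; norm_num
  rw [h2]
  exact mul_le_mul_of_nonneg_right h1 (by positivity)

/-- number of colourings which are constant `c` on `Z` -/
theorem card_const_on {V α : Type*} [Fintype V] [DecidableEq V] [Fintype α] [DecidableEq α]
    (Z : Finset V) (c : α) :
    (Finset.univ.filter fun f : V → α => ∀ v ∈ Z, f v = c).card * Fintype.card α ^ Z.card =
      Fintype.card α ^ Fintype.card V := by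
  have : (Finset.univ.filter fun f : V → α => ∀ v ∈ Z, f v = c) =
      Fintype.piFinset fun v => if v ∈ Z then {c} else Finset.univ := by
    ext f
    simp only [Finset.mem_filter, Finset.mem_univ, true_and, Fintype.mem_piFinset]
    constructor
    · intro h v
      by_cases hv : v ∈ Z
      · simp [hv, h v hv]
      · simp [hv]
    · intro h v hv
      have := h v
      simpa [hv] using this
  rw [this, Fintype.card_piFinset]
  have h2 : ∏ v : V, (if v ∈ Z then ({c} : Finset α) else Finset.univ).card =
      Fintype.card α ^ (Finset.univ.filter fun v => v ∉ Z).card := by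
    rw [← Finset.prod_filter_mul_prod_filter_not Finset.univ (fun v => v ∈ Z)]
    rw [Finset.prod_congr rfl (g := fun _ => 1) (by
      intro v hv; simp [(Finset.mem_filter.1 hv).2])]
    rw [Finset.prod_congr rfl (g := fun _ => Fintype.card α)
      (s₁ := Finset.univ.filter fun v => v ∉ Z) (by
      intro v hv; simp [(Finset.mem_filter.1 hv).2])]
    simp
  rw [h2, ← pow_add]
  congr 1
  have := Finset.card_filter_add_card_filter_not (s := (Finset.univ : Finset V)) (fun v => v ∈ Z)
  have h3 : (Finset.univ.filter fun v => v ∈ Z) = Z := by ext; simp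
  rw [h3] at this
  rw [Finset.card_univ] at this
  omega

/-- number of colourings which avoid `c` on `Z` -/
theorem card_avoid_on {V α : Type*} [Fintype V] [DecidableEq V] [Fintype α] [DecidableEq α]
    (Z : Finset V) (c : α) :
    (Finset.univ.filter fun f : V → α => ∀ v ∈ Z, f v ≠ c).card * Fintype.card α ^ Z.card =
      (Fintype.card α - 1) ^ Z.card * Fintype.card α ^ Fintype.card V := by
  have : (Finset.univ.filter fun f : V → α => ∀ v ∈ Z, f v ≠ c) =
      Fintype.piFinset fun v => if v ∈ Z then Finset.univ.erase c else Finset.univ := by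
    ext f
    simp only [Finset.mem_filter, Finset.mem_univ, true_and, Fintype.mem_piFinset]
    constructor
    · intro h v
      by_cases hv : v ∈ Z
      · simp [hv, h v hv]
      · simp [hv]
    · intro h v hv
      have := h v
      simpa [hv] using this
  rw [this, Fintype.card_piFinset]
  have h2 : ∏ v : V, (if v ∈ Z then (Finset.univ.erase c : Finset α) else Finset.univ).card =
      (Fintype.card α - 1) ^ Z.card *
        Fintype.card α ^ (Finset.univ.filter fun v => v ∉ Z).card := by
    rw [← Finset.prod_filter_mul_prod_filter_not Finset.univ (fun v => v ∈ Z)]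
    rw [Finset.prod_congr rfl (g := fun _ => Fintype.card α - 1) (by
      intro v hv
      simp [(Finset.mem_filter.1 hv).2, Finset.card_erase_of_mem])]
    rw [Finset.prod_congr rfl (g := fun _ => Fintype.card α)
      (s₁ := Finset.univ.filter fun v => v ∉ Z) (by
      intro v hv; simp [(Finset.mem_filter.1 hv).2])]
    simp
  rw [h2, mul_assoc, ← pow_add]
  congr 2
  have := Finset.card_filter_add_card_filter_not (s := (Finset.univ : Finset V)) (fun v => v ∈ Z)
  have h3 : (Finset.univ.filter fun v => v ∈ Z) = Z := by ext; simp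
  rw [h3] at this
  rw [Finset.card_univ] at this
  omega

/-- union bound for the event that at least `t` points of `W` have colour `c` -/
theorem card_dense_event {V α : Type*} [Fintype V] [DecidableEq V] [Fintype α] [DecidableEq α]
    (W : Finset V) (c : α) (t : ℕ) (B : Finset (V → α))
    (hB : ∀ f ∈ B, t ≤ (W.filter (fun v => f v = c)).card) :
    B.card * Fintype.card α ^ t ≤ 2 ^ W.card * Fintype.card α ^ Fintype.card V := by
  have h1 : B ⊆ (Finset.powersetCard t W).biUnion
      (fun Z => Finset.univ.filter fun f : V → α => ∀ v ∈ Z, f v = c) := by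
    intro f hf
    obtain ⟨Z, hZ, hZc⟩ := Finset.exists_subset_card_eq (hB f hf)
    rw [Finset.mem_biUnion]
    refine ⟨Z, ?_, ?_⟩
    · rw [Finset.mem_powersetCard]
      exact ⟨fun v hv => (Finset.mem_filter.1 (hZ hv)).1, hZc⟩
    · simp only [Finset.mem_filter, Finset.mem_univ, true_and]
      intro v hv
      exact (Finset.mem_filter.1 (hZ hv)).2
  have h2 := (Finset.card_le_card h1).trans Finset.card_biUnion_le
  calc B.card * Fintype.card α ^ t ≤ (∑ Z ∈ Finset.powersetCard t W,
        (Finset.univ.filter fun f : V → α => ∀ v ∈ Z, f v = c).card) * Fintype.card α ^ t :=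
        Nat.mul_le_mul_right _ h2
    _ = ∑ Z ∈ Finset.powersetCard t W, Fintype.card α ^ Fintype.card V := by
        rw [Finset.sum_mul]
        refine Finset.sum_congr rfl fun Z hZ => ?_
        rw [← card_const_on Z c, (Finset.mem_powersetCard.1 hZ).2]
    _ = (W.card.choose t) * Fintype.card α ^ Fintype.card V := by
        rw [Finset.sum_const, Finset.card_powersetCard, smul_eq_mul]
    _ ≤ _ := Nat.mul_le_mul_right _ (Nat.choose_le_two_pow _ _)

/-- subtype bookkeeping -/
theorem card_filter_subtype {V α : Type*} [DecidableEq V] [DecidableEq α] (V' W : Finset V)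
    (hW : W ⊆ V') (c : α) (f : V' → α) (g : V → α) (hfg : ∀ v (hv : v ∈ V'), g v = f ⟨v, hv⟩) :
    ((Finset.univ.filter (fun v : V' => (v : V) ∈ W)).filter (fun v => f v = c)).card =
      (W.filter (fun v => g v = c)).card := by
  rw [← Finset.card_image_of_injective _ (Subtype.val_injective (p := fun x => x ∈ V'))]
  congr 1
  ext v
  simp only [Finset.mem_image, Finset.mem_filter, Finset.mem_univ, true_and]
  constructor
  · rintro ⟨⟨v', hv'⟩, ⟨h1, h2⟩, rfl⟩
    exact ⟨h1, by rw [hfg _ hv']; exact h2⟩
  · rintro ⟨h1, h2⟩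
    exact ⟨⟨v, hW h1⟩, ⟨h1, by rw [← hfg]; exact h2⟩, rfl⟩

theorem card_filter_subtype' {V : Type*} [DecidableEq V] (V' W : Finset V)
    (hW : W ⊆ V') :
    (Finset.univ.filter (fun v : V' => (v : V) ∈ W)).card = W.card := by
  rw [← Finset.card_image_of_injective _ (Subtype.val_injective (p := fun x => x ∈ V'))]
  congr 1
  ext v
  simp only [Finset.mem_image, Finset.mem_filter, Finset.mem_univ, true_and]
  constructor
  · rintro ⟨⟨v', hv'⟩, h1, rfl⟩
    exact h1
  · intro h1
    exact ⟨⟨v, hW h1⟩, h1, rfl⟩

end Pool.Agent.Helper34_Synd
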