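import Pool.Agent.Helper34_Synd.Sparse

set_option autoImplicit false

open scoped BigOperators Pointwise

namespace Pool.Agent.Helper34_Synd

open Pool.Agent.Common_LLL

theorem exists_kappa (q : ℕ) (hq : 1 ≤ q) : ∃ κ : ℕ, 1 ≤ κ ∧
    (κ : ℝ) * Real.exp (-((κ : ℝ) / (2 * q))) ≤ 1 / (16 * q) := by
  have hq0 : (0 : ℝ) < q := by exact_mod_cast hq
  have h1 := Real.tendsto_pow_mul_exp_neg_atTop_nhds_zero 1
  have h2 : Filter.Tendsto (fun n : ℕ => (n : ℝ) / (2 * q)) Filter.atTop Filter.atTop :=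
    Filter.Tendsto.atTop_div_const (by positivity) tendsto_natCast_atTop_atTop
  have h3 := h1.comp h2
  have h4 := (h3.eventually (gt_mem_nhds (show (0 : ℝ) < 1 / (16 * q) / (2 * q) by positivity)))
  obtain ⟨κ, hκ, hκ1⟩ := (h4.and (Filter.eventually_ge_atTop 1)).exists
  refine ⟨κ, hκ1, ?_⟩
  simp only [Function.comp, pow_one] at hκ
  rw [lt_div_iff₀ (by positivity)] at hκ
  calc (κ : ℝ) * Real.exp (-((κ : ℝ) / (2 * q))) =
      (κ : ℝ) / (2 * q) * Real.exp (-((κ : ℝ) / (2 * q))) * (2 * q) := by field_simp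
    _ ≤ _ := hκ.le

theorem exists_thr (δ : ℝ) (hδ : 0 < δ) : ∃ M : ℕ, 4 * (3 / 4 : ℝ) ^ (M + 1) ≤ δ := by
  have ht : Filter.Tendsto (fun n : ℕ => 4 * (3 / 4 : ℝ) ^ n) Filter.atTop (nhds (4 * 0)) :=
    (tendsto_pow_atTop_nhds_zero_of_lt_one (by norm_num) (by norm_num)).const_mul _
  rw [mul_zero] at ht
  obtain ⟨M, hM⟩ := (ht.eventually (gt_mem_nhds hδ)).exists
  refine ⟨M, le_trans ?_ hM.le⟩
  have : (3 / 4 : ℝ) ^ (M + 1) ≤ (3 / 4 : ℝ) ^ M :=
    pow_le_pow_of_le_one (by norm_num) (by norm_num) (Nat.le_succ M)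
  linarith

theorem geom_bound (σ : ℝ) (M : ℕ → ℕ)
    (hM : ∀ j, 4 * (3 / 4 : ℝ) ^ (M j + 1) ≤ σ / 2 * (1 / 2) ^ (j + 1)) (hσ : 0 ≤ σ)
    (P : Finset (ℕ × ℕ)) :
    ∑ p ∈ P, (3 / 4 : ℝ) ^ (p.2 + M p.1 + 1) ≤ σ / 2 := by
  classical
  obtain ⟨N, hN⟩ : ∃ N, P ⊆ Finset.range N ×ˢ Finset.range N := by
    refine ⟨(P.sup fun p => p.1 + p.2) + 1, fun p hp => ?_⟩
    have := Finset.le_sup (f := fun p : ℕ × ℕ => p.1 + p.2) hp
    simp only [Finset.mem_product, Finset.mem_range] at this ⊢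
    omega
  calc ∑ p ∈ P, (3 / 4 : ℝ) ^ (p.2 + M p.1 + 1)
      ≤ ∑ p ∈ Finset.range N ×ˢ Finset.range N, (3 / 4 : ℝ) ^ (p.2 + M p.1 + 1) :=
        Finset.sum_le_sum_of_subset_of_nonneg hN fun _ _ _ => by positivity
    _ = ∑ j ∈ Finset.range N, ∑ m ∈ Finset.range N, (3 / 4 : ℝ) ^ (m + M j + 1) :=
        Finset.sum_product _ _ _
    _ ≤ ∑ j ∈ Finset.range N, σ / 2 * (1 / 2) ^ (j + 1) := by
        refine Finset.sum_le_sum fun j _ => le_trans ?_ (hM j)
        have : ∀ m, (3 / 4 : ℝ) ^ (m + M j + 1) = (3 / 4 : ℝ) ^ (M j + 1) * (3 / 4) ^ m := by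
          intro m; rw [← pow_add]; congr 1; omega
        simp_rw [this]
        rw [← Finset.mul_sum, mul_comm]
        refine mul_le_mul_of_nonneg_right ?_ (by positivity)
        have hg := geom_sum_eq (show (3 / 4 : ℝ) ≠ 1 by norm_num) N
        rw [hg]
        have : 0 < (3 / 4 : ℝ) ^ N := by positivity
        rw [div_le_iff_of_neg (by norm_num)]
        linarith
    _ ≤ σ / 2 := by
        rw [← Finset.mul_sum]
        refine mul_le_of_le_one_right (by positivity) ?_
        have : ∀ m : ℕ, (1 / 2 : ℝ) ^ (m + 1) = (1 / 2 : ℝ) * (1 / 2) ^ m := by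
          intro m; rw [pow_succ, mul_comm]
        simp_rw [this]
        rw [← Finset.mul_sum]
        have hg := geom_sum_eq (show (1 / 2 : ℝ) ≠ 1 by norm_num) N
        rw [hg]
        have : 0 < (1 / 2 : ℝ) ^ N := by positivity
        rw [← le_div_iff₀' (by norm_num), div_le_iff_of_neg (by norm_num)]
        linarith

theorem sum_biUnion_le' {α β : Type*} [DecidableEq β] (s : Finset α) (t : α → Finset β)
    (f : β → ℝ) (hf : ∀ b, 0 ≤ f b) :
    ∑ b ∈ s.biUnion t, f b ≤ ∑ a ∈ s, ∑ b ∈ t a, f b := by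
  classical
  induction s using Finset.induction_on with
  | empty => simp
  | insert a s ha ih =>
    rw [Finset.biUnion_insert, Finset.sum_insert ha]
    have h := Finset.sum_union_inter (s₁ := t a) (s₂ := s.biUnion t) (f := f)
    have h0 : 0 ≤ ∑ b ∈ t a ∩ s.biUnion t, f b := Finset.sum_nonneg fun b _ => hf b
    linarith

open Classical in
/-- Sparse syndetic sets: given countably many sequences of growing finite sets, there is a
syndetic set which is uniformly sparse along every one of them. -/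
theorem exists_sparse {H : Type*} [Group H] [Infinite H] (F : ℕ → ℕ → Finset H)
    (hF : ∀ j m, m < (F j m).card) (ε : ℝ) (hε : 0 < ε) :
    ∃ D : Set H, (∃ K : Finset H, ∀ h : H, ∃ k ∈ K, k * h ∈ D) ∧
      ∀ j, ∃ M : ℕ, ∀ m ≥ M, ∀ h : H,
        (((F j m).filter (fun s => s * h ∈ D)).card : ℝ) ≤ ε * (F j m).card := by
  -- number of colours
  obtain ⟨a, ha⟩ := exists_nat_ge (4 / ε)
  have ha4 : 4 ≤ (a : ℝ) * ε := by
    rwa [div_le_iff₀ hε] at ha
  set q : ℕ := 2 ^ a with hq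
  have hq1 : 1 ≤ q := Nat.one_le_two_pow
  have hqpos : (0 : ℝ) < q := by exact_mod_cast hq1
  have : NeZero q := ⟨by omega⟩
  obtain ⟨κ, hκ1, hκ⟩ := exists_kappa q hq1
  set σ : ℝ := 1 / (8 * q) with hσ
  have hσ0 : 0 < σ := by positivity
  have hσ8 : σ ≤ 1 / 8 := by
    rw [hσ]
    apply one_div_le_one_div_of_le (by norm_num)
    have : (1 : ℝ) ≤ q := by exact_mod_cast hq1
    linarith
  obtain ⟨K, hK⟩ := Infinite.exists_subset_card_eq H κ
  choose M hM using fun j : ℕ => exists_thr (σ / 2 * (1 / 2) ^ (j + 1)) (by positivity)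
  let c : Fin q := 0
  let W : (ℕ × ℕ × H) ⊕ H → Finset H := fun i =>
    match i with
    | Sum.inl (j, m, h) => (F j (m + M j)).image (fun s => s * h)
    | Sum.inr h => K.image (fun s => s * h)
  let A : (ℕ × ℕ × H) ⊕ H → Set (H → Fin q) := fun i =>
    match i with
    | Sum.inl (j, m, h) => {ω | ε * ((W (Sum.inl (j, m, h))).card : ℝ) <
        ((W (Sum.inl (j, m, h))).filter (fun v => ω v = c)).card}
    | Sum.inr h => {ω | ∀ v ∈ W (Sum.inr h), ω v ≠ c}
  let x : (ℕ × ℕ × H) ⊕ H → ℝ := fun i =>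
    match i with
    | Sum.inl (j, m, h) => (1 / 2 : ℝ) ^ (F j (m + M j)).card
    | Sum.inr h => Real.exp (-((κ : ℝ) / (2 * q)))
  have hWl : ∀ j m h, (W (Sum.inl (j, m, h))).card = (F j (m + M j)).card := by
    intro j m h
    exact Finset.card_image_of_injective _ (mul_left_injective h)
  have hWr : ∀ h, (W (Sum.inr h)).card = κ := by
    intro h
    rw [← hK]
    exact Finset.card_image_of_injective _ (mul_left_injective h)
  have hxK : (κ : ℝ) * Real.exp (-((κ : ℝ) / (2 * q))) ≤ σ / 2 := by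
    refine hκ.trans (le_of_eq ?_)
    rw [hσ]; field_simp; norm_num
  have hκ1' : (1 : ℝ) ≤ κ := by exact_mod_cast hκ1
  have hexK : Real.exp (-((κ : ℝ) / (2 * q))) ≤ σ / 2 := by
    refine le_trans ?_ hxK
    exact le_mul_of_one_le_left (Real.exp_pos _).le hκ1'
  have hA : ∀ i, ∀ ω ω' : H → Fin q, (∀ v ∈ W i, ω v = ω' v) → ω ∈ A i → ω' ∈ A i := by
    intro i ω ω' hωω hω
    rcases i with ⟨j, m, h⟩ | h
    · simp only [A, Set.mem_ofPred_eq] at hω ⊢
      have : (W (Sum.inl (j, m, h))).filter (fun v => ω' v = c) =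
          (W (Sum.inl (j, m, h))).filter (fun v => ω v = c) := by
        refine Finset.filter_congr fun v hv => ?_
        rw [hωω v hv]
      rw [this]
      exact hω
    · simp only [A, Set.mem_ofPred_eq] at hω ⊢
      intro v hv
      rw [← hωω v hv]
      exact hω v hv
  have hx0 : ∀ i, 0 ≤ x i := by
    intro i
    rcases i with ⟨j, m, h⟩ | h
    · exact pow_nonneg (by norm_num) _
    · exact (Real.exp_pos _).le
  have hx1 : ∀ i, x i ≤ 1 / 2 := by
    intro i
    rcases i with ⟨j, m, h⟩ | h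
    · simp only [x]
      have := hF j (m + M j)
      calc (1 / 2 : ℝ) ^ (F j (m + M j)).card ≤ (1 / 2 : ℝ) ^ 1 :=
            pow_le_pow_of_le_one (by norm_num) (by norm_num) (by omega)
        _ = 1 / 2 := by norm_num
    · simp only [x]
      linarith
  have hsum : ∀ v, ∀ J : Finset ((ℕ × ℕ × H) ⊕ H), ∑ j ∈ J.filter (fun j => v ∈ W j), x j ≤ σ := by
    -- the sum condition
    intro v J
    set J' := J.filter (fun j => v ∈ W j) with hJ'
    have hsplit : ∑ j ∈ J', x j = ∑ j ∈ J'.toLeft, x (Sum.inl j) + ∑ j ∈ J'.toRight, x (Sum.inr j) := by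
      rw [← Finset.sum_disjSum]
      congr 1
      exact Finset.toLeft_disjSum_toRight.symm
    rw [hsplit]
    have hleft : ∑ j ∈ J'.toLeft, x (Sum.inl j) ≤ σ / 2 := by
      let P := J'.toLeft.image (fun t => (t.1, t.2.1))
      have hsub : J'.toLeft ⊆ P.biUnion fun p => (F p.1 (p.2 + M p.1)).image
          fun s => (p.1, p.2, s⁻¹ * v) := by
        rintro ⟨j, m, h⟩ ht
        rw [Finset.mem_biUnion]
        refine ⟨(j, m), Finset.mem_image.2 ⟨_, ht, rfl⟩, ?_⟩
        rw [Finset.mem_toLeft, hJ', Finset.mem_filter] at ht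
        obtain ⟨s, hs, hsv⟩ := Finset.mem_image.1 ht.2
        exact Finset.mem_image.2 ⟨s, hs, by rw [← hsv]; simp⟩
      calc ∑ j ∈ J'.toLeft, x (Sum.inl j) ≤ ∑ j ∈ (P.biUnion fun p =>
            (F p.1 (p.2 + M p.1)).image fun s => (p.1, p.2, s⁻¹ * v)), x (Sum.inl j) :=
            Finset.sum_le_sum_of_subset_of_nonneg hsub (by
              rintro ⟨j, m, h⟩ _ _
              exact pow_nonneg (by norm_num) _)
        _ ≤ ∑ p ∈ P, ∑ j ∈ ((F p.1 (p.2 + M p.1)).image fun s => (p.1, p.2, s⁻¹ * v)),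
              x (Sum.inl j) := by
            refine sum_biUnion_le' _ _ _ ?_
            rintro ⟨j, m, h⟩
            exact pow_nonneg (by norm_num) _
        _ ≤ ∑ p ∈ P, (3 / 4 : ℝ) ^ (p.2 + M p.1 + 1) := by
            refine Finset.sum_le_sum fun p _ => ?_
            have hw := hF p.1 (p.2 + M p.1)
            have h5 : ∑ j ∈ ((F p.1 (p.2 + M p.1)).image fun s => (p.1, p.2, s⁻¹ * v)),
                x (Sum.inl j) ≤ ((F p.1 (p.2 + M p.1)).card : ℝ) *
                  (1 / 2 : ℝ) ^ (F p.1 (p.2 + M p.1)).card := by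
              have h6 : ∀ j ∈ ((F p.1 (p.2 + M p.1)).image fun s => (p.1, p.2, s⁻¹ * v)),
                  x (Sum.inl j) ≤ (1 / 2 : ℝ) ^ (F p.1 (p.2 + M p.1)).card := by
                intro j hj
                obtain ⟨s, _, rfl⟩ := Finset.mem_image.1 hj
                exact le_rfl
              refine (Finset.sum_le_card_nsmul _ _ _ h6).trans ?_
              rw [nsmul_eq_mul]
              refine mul_le_mul_of_nonneg_right ?_ (by positivity)
              exact_mod_cast Finset.card_image_le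
            refine h5.trans ((nat_mul_half_pow_le _).trans ?_)
            exact pow_le_pow_of_le_one (by norm_num) (by norm_num) (by omega)
        _ ≤ σ / 2 := geom_bound σ M hM hσ0.le P
    have hright : ∑ j ∈ J'.toRight, x (Sum.inr j) ≤ σ / 2 := by
      have hsub : J'.toRight ⊆ K.image fun s => s⁻¹ * v := by
        intro h ht
        rw [Finset.mem_toRight, hJ', Finset.mem_filter] at ht
        obtain ⟨s, hs, hsv⟩ := Finset.mem_image.1 ht.2
        exact Finset.mem_image.2 ⟨s, hs, by rw [← hsv]; simp⟩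
      have hc : (J'.toRight.card : ℝ) ≤ κ := by
        have h1 := (Finset.card_le_card hsub).trans Finset.card_image_le
        rw [hK] at h1
        exact_mod_cast h1
      calc ∑ j ∈ J'.toRight, x (Sum.inr j) = (J'.toRight.card : ℝ) *
            Real.exp (-((κ : ℝ) / (2 * q))) := by
            simp only [x]
            rw [Finset.sum_const, nsmul_eq_mul]
        _ ≤ κ * Real.exp (-((κ : ℝ) / (2 * q))) :=
            mul_le_mul_of_nonneg_right hc (Real.exp_pos _).le
        _ ≤ σ / 2 := hxK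
    linarith
  have hP : ∀ i, ∀ V' : Finset H, W i ⊆ V' → ∀ e : (V' → Fin q) → (H → Fin q),
      (∀ f, ∀ v (hv : v ∈ V'), e f v = f ⟨v, hv⟩) →
      ∀ B : Finset (V' → Fin q), (∀ f, f ∈ B ↔ e f ∈ A i) →
      (B.card : ℝ) ≤ x i * Real.exp (-(2 * σ * (W i).card)) *
        (Fintype.card (Fin q) : ℝ) ^ V'.card := by
    -- the probability bounds
    intro i V' hV' e he B hB
    have hcardα : (Fintype.card (Fin q)) = q := Fintype.card_fin q
    rcases i with ⟨j, m, h⟩ | h
    · set w := (W (Sum.inl (j, m, h))).card with hw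
      have h1 := card_dense_event (Finset.univ.filter (fun v : V' => (v : H) ∈ W (Sum.inl (j, m, h))))
        c ⌈ε * w⌉₊ B (by
          intro f hf
          rw [card_filter_subtype V' _ hV' c f (e f) (he f)]
          have h2 := (hB f).1 hf
          simp only [A, Set.mem_ofPred_eq] at h2
          exact Nat.ceil_le.2 h2.le)
      rw [card_filter_subtype' V' _ hV', Fintype.card_coe, hcardα, ← hw] at h1
      have h1' : (B.card : ℝ) * (q : ℝ) ^ ⌈ε * w⌉₊ ≤ 2 ^ w * (q : ℝ) ^ V'.card := by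
        exact_mod_cast h1
      have h3 : (2 : ℝ) ^ (4 * w) ≤ (q : ℝ) ^ ⌈ε * w⌉₊ := by
        have h4 : 4 * w ≤ a * ⌈ε * w⌉₊ := by
          have h5 : ((4 * w : ℕ) : ℝ) ≤ ((a * ⌈ε * w⌉₊ : ℕ) : ℝ) := by
            push_cast
            calc (4 : ℝ) * w ≤ (a * ε) * w := mul_le_mul_of_nonneg_right ha4 (Nat.cast_nonneg _)
              _ = a * (ε * w) := by ring
              _ ≤ _ := mul_le_mul_of_nonneg_left (Nat.le_ceil _) (Nat.cast_nonneg _)
          exact_mod_cast h5
        have h6 : (q : ℝ) ^ ⌈ε * w⌉₊ = (2 : ℝ) ^ (a * ⌈ε * w⌉₊) := by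
          rw [hq, pow_mul]; push_cast; rfl
        rw [h6]
        exact pow_le_pow_right₀ (by norm_num) h4
      have h7 : (B.card : ℝ) * (2 : ℝ) ^ (4 * w) ≤ 2 ^ w * (q : ℝ) ^ V'.card :=
        (mul_le_mul_of_nonneg_left h3 (Nat.cast_nonneg _)).trans h1'
      have h8 : (1 / 4 : ℝ) ^ w ≤ Real.exp (-(2 * σ * w)) := by
        have h9 : (1 / 4 : ℝ) ≤ Real.exp (-(2 * σ)) := by
          have := Real.add_one_le_exp (-(2 * σ))
          linarith
        calc (1 / 4 : ℝ) ^ w ≤ (Real.exp (-(2 * σ))) ^ w := pow_le_pow_left₀ (by norm_num) h9 _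
          _ = Real.exp (-(2 * σ * w)) := by
            rw [← Real.exp_nat_mul]; congr 1; ring
      have hxx : x (Sum.inl (j, m, h)) = (1 / 2 : ℝ) ^ w := by
        simp only [x]; rw [hw, hWl]
      rw [hxx, hcardα]
      have h10 : (0 : ℝ) < (2 : ℝ) ^ (4 * w) := by positivity
      have h11 : (B.card : ℝ) ≤ ((1 / 2 : ℝ) ^ w * (1 / 4 : ℝ) ^ w) * (q : ℝ) ^ V'.card := by
        refine le_of_mul_le_mul_right (h7.trans (le_of_eq ?_)) h10
        have h12 : ((1 / 2 : ℝ) ^ w * (1 / 4 : ℝ) ^ w) * (2 : ℝ) ^ (4 * w) = 2 ^ w := by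
          rw [pow_mul, ← mul_pow, ← mul_pow]; norm_num
        rw [← h12]; ring
      refine h11.trans ?_
      refine mul_le_mul_of_nonneg_right ?_ (by positivity)
      exact mul_le_mul_of_nonneg_left h8 (by positivity)
    · have h1 : B ⊆ Finset.univ.filter (fun f : V' → Fin q =>
          ∀ v ∈ (Finset.univ.filter (fun v : V' => (v : H) ∈ W (Sum.inr h))), f v ≠ c) := by
        intro f hf
        simp only [Finset.mem_filter, Finset.mem_univ, true_and]
        intro v hv
        have h2 := (hB f).1 hf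
        simp only [A, Set.mem_ofPred_eq] at h2
        have h3 := h2 v hv
        rwa [he f v v.2] at h3
      have h2 := card_avoid_on (Finset.univ.filter (fun v : V' => (v : H) ∈ W (Sum.inr h))) c
      rw [card_filter_subtype' V' _ hV', Fintype.card_coe, hcardα, hWr] at h2
      have h3 : (B.card : ℝ) * (q : ℝ) ^ κ ≤ ((q : ℝ) - 1) ^ κ * (q : ℝ) ^ V'.card := by
        have h4 : (B.card) * q ^ κ ≤ (q - 1) ^ κ * q ^ V'.card := by
          rw [← h2]
          exact Nat.mul_le_mul_right _ (Finset.card_le_card h1)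
        have h5 : ((B.card * q ^ κ : ℕ) : ℝ) ≤ (((q - 1) ^ κ * q ^ V'.card : ℕ) : ℝ) := by
          exact_mod_cast h4
        push_cast [Nat.cast_sub hq1] at h5
        exact h5
      rw [hWr, hcardα]
      have h6 : (0 : ℝ) < (q : ℝ) ^ κ := by positivity
      have h7 : (B.card : ℝ) ≤ (1 - 1 / q) ^ κ * (q : ℝ) ^ V'.card := by
        refine le_of_mul_le_mul_right (h3.trans (le_of_eq ?_)) h6
        have h8 : ((q : ℝ) - 1) ^ κ = (1 - 1 / q) ^ κ * (q : ℝ) ^ κ := by
          rw [← mul_pow]; congr 1; field_simp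
        rw [h8]; ring
      refine h7.trans ?_
      refine mul_le_mul_of_nonneg_right ?_ (by positivity)
      have h9 : (1 - 1 / (q : ℝ)) ≤ Real.exp (-(1 / q)) := by
        have := Real.add_one_le_exp (-(1 / (q : ℝ)))
        linarith
      have h10 : 0 ≤ (1 - 1 / (q : ℝ)) := by
        have : (1 : ℝ) ≤ q := by exact_mod_cast hq1
        have : 1 / (q : ℝ) ≤ 1 := by rw [div_le_one hqpos]; exact this
        linarith
      calc (1 - 1 / (q : ℝ)) ^ κ ≤ (Real.exp (-(1 / q))) ^ κ := pow_le_pow_left₀ h10 h9 _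
        _ = Real.exp (-(κ / q)) := by rw [← Real.exp_nat_mul]; congr 1; ring
        _ ≤ x (Sum.inr h) * Real.exp (-(2 * σ * κ)) := by
          simp only [x]
          rw [← Real.exp_add, Real.exp_le_exp]
          have h11 : (κ : ℝ) / q = κ / (2 * q) + 2 * σ * κ + κ / (4 * q) := by
            rw [hσ]; field_simp; norm_num
          have h12 : 0 ≤ (κ : ℝ) / (4 * q) := by positivity
          linarith
  obtain ⟨ω, hω⟩ := lll_compact A W hA x σ hx0 hx1 hsum hP
  refine ⟨{h | ω h = c}, ⟨K, ?_⟩, ?_⟩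
  · intro h
    have h1 := hω (Sum.inr h)
    simp only [A, Set.mem_ofPred_eq] at h1
    push Not at h1
    obtain ⟨v, hv, hvc⟩ := h1
    obtain ⟨k, hk, rfl⟩ := Finset.mem_image.1 hv
    exact ⟨k, hk, hvc⟩
  · intro j
    refine ⟨M j, fun m hm h => ?_⟩
    obtain ⟨m', rfl⟩ : ∃ m', m = m' + M j := ⟨m - M j, by omega⟩
    have h1 := hω (Sum.inl (j, m', h))
    simp only [A, Set.mem_ofPred_eq, not_lt, hWl] at h1
    refine le_trans ?_ h1
    refine le_of_eq ?_
    congr 1
    rw [← Finset.card_image_of_injective _ (mul_left_injective h)]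
    congr 1
    ext v
    simp only [W, Finset.mem_image, Finset.mem_filter, Set.mem_ofPred_eq]
    constructor
    · rintro ⟨s, ⟨hs, hc⟩, rfl⟩
      exact ⟨⟨s, hs, rfl⟩, hc⟩
    · rintro ⟨⟨s, hs, rfl⟩, hc⟩
      exact ⟨s, ⟨hs, hc⟩, rfl⟩

end Pool.Agent.Helper34_Synd
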